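import Mathlib

/-!
Four squares with a linear form a power of two: definitions.
-/

namespace Pool.Agent.Lib.MP_0d68c6_nt

/-- `n` is a sum of the squares of four natural numbers `x, y, z, w` for which
`a x + b y + c z + d w` is a power of two. -/
def Rep (a b c d : ℤ) (n : ℕ) : Prop :=
  ∃ x y z w : ℕ, n = x ^ 2 + y ^ 2 + z ^ 2 + w ^ 2 ∧ ∃ k : ℕ, a * x + b * y + c * z + d * w = 2 ^ k

/-- The 32 coefficient vectors of the question. -/
def forms : List (ℤ × ℤ × ℤ × ℤ) :=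
  [(1, 1, 2, -2), (1, 1, 2, -3), (1, 1, 2, -4), (1, 2, 2, -3), (1, 2, 3, -4), (1, 2, 4, -3),
    (1, 2, 6, -7), (1, 3, 4, -4), (1, 4, 6, -5), (2, 3, 5, -4), (2, 1, -1, -1), (2, 1, -2, -1),
    (2, 1, -3, -1), (2, 2, -3, -2), (3, 1, -3, -2), (3, 1, -4, -2), (3, 2, -2, -1),
    (3, 2, -3, -1), (3, 2, -3, -2), (3, 1, -2, -1), (3, 2, -6, -1), (4, 3, -4, -3),
    (4, 3, -5, -1), (4, 3, -5, -2), (5, 2, -2, -1), (5, 2, -3, -2), (5, 2, -4, -3),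
    (5, 4, -5, -1), (7, 1, -6, -2), (8, 3, -3, -2), (8, 3, -10, -1), (9, 1, -4, -1)]

end Pool.Agent.Lib.MP_0d68c6_nt
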