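import Pool.Agent.Lib.MP_0d68c6_nt.Prog
import Pool.Agent.Lib.MP_0d68c6_nt.Defs

/-!
From one integral point on the plane to an arithmetic progression of represented numbers.
-/

namespace Pool.Agent.Lib.MP_0d68c6_nt

/-- The coordinates of `h w` for the pure quaternion `w = (x, y, z)`. -/
def l1 {R : Type} [CommRing R] (b c d x y z : R) : R := -(b * x) - c * y - d * z
def l2 {R : Type} [CommRing R] (a c d x y z : R) : R := a * x + c * z - d * y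
def l3 {R : Type} [CommRing R] (a b d x y z : R) : R := a * y - b * z + d * x
def l4 {R : Type} [CommRing R] (a b c x y z : R) : R := a * z + b * y - c * x

/-- The cone of the vectors `w` for which `h w` is positive. -/
def cn (a b c d ε : ℝ) : Set (ℝ × ℝ × ℝ) := {w |
  ε * (|w.1| + |w.2.1| + |w.2.2|) < l1 b c d w.1 w.2.1 w.2.2 ∧
  ε * (|w.1| + |w.2.1| + |w.2.2|) < l2 a c d w.1 w.2.1 w.2.2 ∧
  ε * (|w.1| + |w.2.1| + |w.2.2|) < l3 a b d w.1 w.2.1 w.2.2 ∧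
  ε * (|w.1| + |w.2.1| + |w.2.2|) < l4 a b c w.1 w.2.1 w.2.2}

theorem cn_cone {a b c d p1 p2 p3 p4 : ℤ} (h0 : 0 < a ^ 2 + b ^ 2 + c ^ 2 + d ^ 2) (h1 : 0 < p1)
    (h2 : 0 < p2) (h3 : 0 < p3) (h4 : 0 < p4) (hp : a * p1 + b * p2 + c * p3 + d * p4 = 0) :
    ∃ ε : ℝ, 0 < ε ∧ OpenCone (cn a b c d ε) := by
  obtain ⟨x, hx⟩ : ∃ x : ℤ, x = -b * p1 + a * p2 + d * p3 - c * p4 := ⟨_, rfl⟩
  obtain ⟨y, hy⟩ : ∃ y : ℤ, y = -c * p1 - d * p2 + a * p3 + b * p4 := ⟨_, rfl⟩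
  obtain ⟨z, hz⟩ : ∃ z : ℤ, z = -d * p1 + c * p2 - b * p3 + a * p4 := ⟨_, rfl⟩
  have e1 : l1 b c d x y z = (a ^ 2 + b ^ 2 + c ^ 2 + d ^ 2) * p1 := by
    simp only [l1]
    rw [hx, hy, hz]
    linear_combination (-a) * hp
  have e2 : l2 a c d x y z = (a ^ 2 + b ^ 2 + c ^ 2 + d ^ 2) * p2 := by
    simp only [l2]
    rw [hx, hy, hz]
    linear_combination (-b) * hp
  have e3 : l3 a b d x y z = (a ^ 2 + b ^ 2 + c ^ 2 + d ^ 2) * p3 := by
    simp only [l3]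
    rw [hx, hy, hz]
    linear_combination (-c) * hp
  have e4 : l4 a b c x y z = (a ^ 2 + b ^ 2 + c ^ 2 + d ^ 2) * p4 := by
    simp only [l4]
    rw [hx, hy, hz]
    linear_combination (-d) * hp
  have g1 : 1 ≤ l1 b c d x y z := by rw [e1]; exact (mul_pos h0 h1)
  have g2 : 1 ≤ l2 a c d x y z := by rw [e2]; exact (mul_pos h0 h2)
  have g3 : 1 ≤ l3 a b d x y z := by rw [e3]; exact (mul_pos h0 h3)
  have g4 : 1 ≤ l4 a b c x y z := by rw [e4]; exact (mul_pos h0 h4)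
  have f1 : (1 : ℝ) ≤ l1 (b : ℝ) c d x y z := by
    have : ((1 : ℤ) : ℝ) ≤ ((l1 b c d x y z : ℤ) : ℝ) := by exact_mod_cast g1
    simp only [l1] at this ⊢
    push_cast at this
    exact this
  have f2 : (1 : ℝ) ≤ l2 (a : ℝ) c d x y z := by
    have : ((1 : ℤ) : ℝ) ≤ ((l2 a c d x y z : ℤ) : ℝ) := by exact_mod_cast g2
    simp only [l2] at this ⊢
    push_cast at this
    exact this
  have f3 : (1 : ℝ) ≤ l3 (a : ℝ) b d x y z := by
    have : ((1 : ℤ) : ℝ) ≤ ((l3 a b d x y z : ℤ) : ℝ) := by exact_mod_cast g3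
    simp only [l3] at this ⊢
    push_cast at this
    exact this
  have f4 : (1 : ℝ) ≤ l4 (a : ℝ) b c x y z := by
    have : ((1 : ℤ) : ℝ) ≤ ((l4 a b c x y z : ℤ) : ℝ) := by exact_mod_cast g4
    simp only [l4] at this ⊢
    push_cast at this
    exact this
  obtain ⟨s, hs⟩ : ∃ s : ℝ, s = |(x : ℝ)| + |(y : ℝ)| + |(z : ℝ)| := ⟨_, rfl⟩
  have hs0 : 0 ≤ s := by rw [hs]; positivity
  have hlt : 1 / (s + 1) * (|(x : ℝ)| + |(y : ℝ)| + |(z : ℝ)|) < 1 := by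
    rw [← hs, div_mul_eq_mul_div, one_mul, div_lt_one (by linarith)]
    linarith
  refine ⟨1 / (s + 1), by positivity, ?_, ⟨((x : ℝ), (y : ℝ), (z : ℝ)), ?_⟩, ?_⟩
  · unfold cn
    simp only [l1, l2, l3, l4, Set.ofPred_and]
    refine IsOpen.inter (isOpen_lt (by fun_prop) (by fun_prop))
      (IsOpen.inter (isOpen_lt (by fun_prop) (by fun_prop))
      (IsOpen.inter (isOpen_lt (by fun_prop) (by fun_prop))
      (isOpen_lt (by fun_prop) (by fun_prop))))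
  · exact ⟨lt_of_lt_of_le hlt f1, lt_of_lt_of_le hlt f2, lt_of_lt_of_le hlt f3,
      lt_of_lt_of_le hlt f4⟩
  · rintro w ⟨k1, k2, k3, k4⟩ t ht
    have e : 1 / (s + 1) * (|(t • w).1| + |(t • w).2.1| + |(t • w).2.2|) =
        t * (1 / (s + 1) * (|w.1| + |w.2.1| + |w.2.2|)) := by
      simp only [Prod.smul_fst, Prod.smul_snd, smul_eq_mul, abs_mul, abs_of_pos ht]
      ring
    refine ⟨?_, ?_, ?_, ?_⟩
    · rw [e]
      refine lt_of_lt_of_eq (mul_lt_mul_of_pos_left k1 ht) ?_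
      simp only [l1, Prod.smul_fst, Prod.smul_snd, smul_eq_mul]
      ring
    · rw [e]
      refine lt_of_lt_of_eq (mul_lt_mul_of_pos_left k2 ht) ?_
      simp only [l2, Prod.smul_fst, Prod.smul_snd, smul_eq_mul]
      ring
    · rw [e]
      refine lt_of_lt_of_eq (mul_lt_mul_of_pos_left k3 ht) ?_
      simp only [l3, Prod.smul_fst, Prod.smul_snd, smul_eq_mul]
      ring
    · rw [e]
      refine lt_of_lt_of_eq (mul_lt_mul_of_pos_left k4 ht) ?_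
      simp only [l4, Prod.smul_fst, Prod.smul_snd, smul_eq_mul]
      ring

/-- One coordinate. -/
theorem one_coord {N t h l v' H s ε x y z : ℝ} (hN : 0 < N) (he : N * v' = t * h + l)
    (hl : ε * s < l) (hs : H ≤ ε * s) (hh : |t * h| ≤ H) (_ : x = y) (_ : y = z) : 0 ≤ v' := by
  have h1 := neg_abs_le (t * h)
  have h2 : 0 < N * v' := by linarith
  exact ((mul_pos_iff_of_pos_left hN).1 h2).le

theorem ap_core {a b c d p1 p2 p3 p4 : ℤ} (h1 : 0 < p1) (h2 : 0 < p2) (h3 : 0 < p3) (h4 : 0 < p4)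
    (hp : a * p1 + b * p2 + c * p3 + d * p4 = 0) {v1 v2 v3 v4 : ℤ} {k : ℕ}
    (hv : a * v1 + b * v2 + c * v3 + d * v4 = 2 ^ k)
    (hN0 : 0 < a ^ 2 + b ^ 2 + c ^ 2 + d ^ 2)
    (hW0 : 0 < (-b * v1 + a * v2 + d * v3 - c * v4) ^ 2 + (-c * v1 - d * v2 + a * v3 + b * v4) ^ 2 +
      (-d * v1 + c * v2 - b * v3 + a * v4) ^ 2) {m : ℕ} (hm : 0 < m) :
    ∃ A M : ℕ, 0 < M ∧ ∀ j : ℕ, ((A + M * j : ℕ) : ℤ) ≡ v1 ^ 2 + v2 ^ 2 + v3 ^ 2 + v4 ^ 2 [ZMOD m] ∧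
      Rep a b c d (A + M * j) := by
  obtain ⟨N, hN⟩ := Int.eq_ofNat_of_zero_le hN0.le
  have hNpos : 0 < N := by
    rw [hN] at hN0
    exact_mod_cast hN0
  obtain ⟨ε, hε, hcone⟩ := cn_cone hN0 h1 h2 h3 h4 hp
  obtain ⟨A, B, hA, hB, hprog⟩ := prog hW0 (M := N * m) (by positivity) hcone
  obtain ⟨H, hH⟩ : ∃ H : ℝ, H = 2 ^ k * (|(a : ℝ)| + |(b : ℝ)| + |(c : ℝ)| + |(d : ℝ)|) := ⟨_, rfl⟩
  have hH0 : 0 ≤ H := by rw [hH]; positivity
  obtain ⟨J, hJ⟩ := exists_nat_ge ((H / ε) ^ 2)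
  -- all large members
  have key : ∀ i : ℕ, J ≤ i → ∃ n : ℕ, (N : ℤ) * n = (2 ^ k) ^ 2 + (A + B * i) ∧
      (n : ℤ) ≡ v1 ^ 2 + v2 ^ 2 + v3 ^ 2 + v4 ^ 2 [ZMOD m] ∧ Rep a b c d n := by
    intro i hi
    obtain ⟨x, y, z, ⟨X, hX⟩, ⟨Y, hY⟩, ⟨Z, hZ⟩, ⟨c1, c2, c3, c4⟩, hs⟩ := hprog i
    simp only at c1 c2 c3 c4
    obtain ⟨s, hsd⟩ : ∃ s : ℝ, s = |(x : ℝ)| + |(y : ℝ)| + |(z : ℝ)| := ⟨_, rfl⟩
    rw [← hsd] at c1 c2 c3 c4
    have hs0 : 0 ≤ s := by rw [hsd]; positivity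
    have hHs : H ≤ ε * s := by
      have g1 : (H / ε) ^ 2 ≤ s ^ 2 := by
        have g2 : ((x : ℝ) ^ 2 + (y : ℝ) ^ 2 + (z : ℝ) ^ 2) = A + B * i := by exact_mod_cast hs
        have g3 : (x : ℝ) ^ 2 + (y : ℝ) ^ 2 + (z : ℝ) ^ 2 ≤ s ^ 2 := by
          rw [hsd]
          have a1 := sq_abs (x : ℝ)
          have a2 := sq_abs (y : ℝ)
          have a3 := sq_abs (z : ℝ)
          have b1 := mul_nonneg (abs_nonneg (x : ℝ)) (abs_nonneg (y : ℝ))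
          have b2 := mul_nonneg (abs_nonneg (x : ℝ)) (abs_nonneg (z : ℝ))
          have b3 := mul_nonneg (abs_nonneg (y : ℝ)) (abs_nonneg (z : ℝ))
          nlinarith
        have g4 : (J : ℝ) ≤ i := by exact_mod_cast hi
        have g5 : (1 : ℝ) ≤ B := by exact_mod_cast hB
        have g6 : (0 : ℝ) ≤ A := Nat.cast_nonneg _
        have g7 : (0 : ℝ) ≤ i := Nat.cast_nonneg _
        nlinarith
      have g2 : H / ε ≤ s := (pow_le_pow_iff_left₀ (by positivity) hs0 two_ne_zero).1 g1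
      rw [div_le_iff₀ hε] at g2
      linarith
    obtain ⟨x1, hx1⟩ : ∃ x1 : ℤ, x1 = v1 + m * l1 b c d X Y Z := ⟨_, rfl⟩
    obtain ⟨x2, hx2⟩ : ∃ x2 : ℤ, x2 = v2 + m * l2 a c d X Y Z := ⟨_, rfl⟩
    obtain ⟨x3, hx3⟩ : ∃ x3 : ℤ, x3 = v3 + m * l3 a b d X Y Z := ⟨_, rfl⟩
    obtain ⟨x4, hx4⟩ : ∃ x4 : ℤ, x4 = v4 + m * l4 a b c X Y Z := ⟨_, rfl⟩
    push_cast at hX hY hZ
    have hNe : (N : ℤ) = a ^ 2 + b ^ 2 + c ^ 2 + d ^ 2 := hN.symm
    have q1 : (N : ℤ) * x1 = 2 ^ k * a + l1 b c d x y z := by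
      rw [hx1]
      simp only [l1]
      rw [← hv]
      linear_combination (b * hX + c * hY + d * hZ) + v1 * hNe
    have q2 : (N : ℤ) * x2 = 2 ^ k * b + l2 a c d x y z := by
      rw [hx2]
      simp only [l2]
      rw [← hv]
      linear_combination (-a * hX - c * hZ + d * hY) + v2 * hNe
    have q3 : (N : ℤ) * x3 = 2 ^ k * c + l3 a b d x y z := by
      rw [hx3]
      simp only [l3]
      rw [← hv]
      linear_combination (-a * hY + b * hZ - d * hX) + v3 * hNe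
    have q4 : (N : ℤ) * x4 = 2 ^ k * d + l4 a b c x y z := by
      rw [hx4]
      simp only [l4]
      rw [← hv]
      linear_combination (-a * hZ - b * hY + c * hX) + v4 * hNe
    have hNr : (0 : ℝ) < N := by exact_mod_cast hNpos
    have nn : ∀ (v' h l : ℤ), (N : ℤ) * v' = 2 ^ k * h + l → ε * s < (l : ℝ) →
        |(h : ℝ)| ≤ |(a : ℝ)| + |(b : ℝ)| + |(c : ℝ)| + |(d : ℝ)| → 0 ≤ v' := by
      intro v' h l e1 e2 e3
      have e4 : (N : ℝ) * v' = 2 ^ k * h + l := by exact_mod_cast e1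
      have e5 : |(2 : ℝ) ^ k * h| ≤ H := by
        rw [abs_mul, abs_of_pos (by positivity), hH]
        exact mul_le_mul_of_nonneg_left e3 (by positivity)
      have e6 := one_coord (x := 0) (y := 0) (z := 0) hNr e4 e2 hHs e5 rfl rfl
      exact_mod_cast e6
    have na := abs_nonneg (a : ℝ)
    have nb := abs_nonneg (b : ℝ)
    have nc := abs_nonneg (c : ℝ)
    have nd := abs_nonneg (d : ℝ)
    have z1 : 0 ≤ x1 := nn x1 a _ q1 (by simp only [l1] at c1 ⊢; push_cast; exact c1) (by linarith)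
    have z2 : 0 ≤ x2 := nn x2 b _ q2 (by simp only [l2] at c2 ⊢; push_cast; exact c2) (by linarith)
    have z3 : 0 ≤ x3 := nn x3 c _ q3 (by simp only [l3] at c3 ⊢; push_cast; exact c3) (by linarith)
    have z4 : 0 ≤ x4 := nn x4 d _ q4 (by simp only [l4] at c4 ⊢; push_cast; exact c4) (by linarith)
    have hQ : a * x1 + b * x2 + c * x3 + d * x4 = 2 ^ k := by
      rw [hx1, hx2, hx3, hx4, ← hv]
      simp only [l1, l2, l3, l4]
      ring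
    have hsum : (N : ℤ) * (x1 ^ 2 + x2 ^ 2 + x3 ^ 2 + x4 ^ 2) = (2 ^ k) ^ 2 + (A + B * i) := by
      have e0 : (N : ℤ) ≠ 0 := by exact_mod_cast hNpos.ne'
      refine mul_left_cancel₀ e0 ?_
      have e1 : (N : ℤ) * ((N : ℤ) * (x1 ^ 2 + x2 ^ 2 + x3 ^ 2 + x4 ^ 2)) =
          (N * x1) ^ 2 + (N * x2) ^ 2 + (N * x3) ^ 2 + (N * x4) ^ 2 := by ring
      rw [e1, q1, q2, q3, q4, ← hs, hNe]
      simp only [l1, l2, l3, l4]
      ring
    obtain ⟨n1, hn1⟩ := Int.eq_ofNat_of_zero_le z1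
    obtain ⟨n2, hn2⟩ := Int.eq_ofNat_of_zero_le z2
    obtain ⟨n3, hn3⟩ := Int.eq_ofNat_of_zero_le z3
    obtain ⟨n4, hn4⟩ := Int.eq_ofNat_of_zero_le z4
    refine ⟨n1 ^ 2 + n2 ^ 2 + n3 ^ 2 + n4 ^ 2, ?_, ?_, n1, n2, n3, n4, rfl, k, ?_⟩
    · push_cast
      rw [← hn1, ← hn2, ← hn3, ← hn4]
      exact hsum
    · push_cast
      rw [← hn1, ← hn2, ← hn3, ← hn4]
      have hmod : ∀ v l : ℤ, (v + m * l) ^ 2 ≡ v ^ 2 [ZMOD m] := fun v l =>
        Int.ModEq.pow 2 (Int.modEq_iff_dvd.2 ⟨-l, by ring⟩)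
      rw [hx1, hx2, hx3, hx4]
      exact (((hmod _ _).add (hmod _ _)).add (hmod _ _)).add (hmod _ _)
    · rw [← hn1, ← hn2, ← hn3, ← hn4]
      exact hQ
  obtain ⟨n0, e0, m0, -⟩ := key J le_rfl
  obtain ⟨n1, e1, -, -⟩ := key (J + 1) (Nat.le_succ J)
  push_cast at e0 e1
  have e2 : (N : ℤ) * (n1 - n0) = B := by linarith
  have hNz : (0 : ℤ) < N := by exact_mod_cast hNpos
  have hBz : (0 : ℤ) < B := by exact_mod_cast hB
  have h01 : (0 : ℤ) < n1 - n0 := by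
    rw [← e2] at hBz
    exact (mul_pos_iff_of_pos_left hNz).1 hBz
  obtain ⟨M, hM⟩ := Int.eq_ofNat_of_zero_le h01.le
  refine ⟨n0, M, ?_, fun j => ?_⟩
  · rw [hM] at h01
    exact_mod_cast h01
  · obtain ⟨n, e3, e4, e5⟩ := key (J + j) (Nat.le_add_right J j)
    have e6 : n = n0 + M * j := by
      have e7 : (N : ℤ) * n = N * ((n0 + M * j : ℕ) : ℤ) := by
        push_cast at e3 ⊢
        rw [e3]
        have e8 : (N : ℤ) * (M : ℤ) = B := by rw [← e2, hM]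
        linear_combination (-1 : ℤ) * e0 - (j : ℤ) * e8
      exact_mod_cast mul_left_cancel₀ hNz.ne' e7
    rw [← e6]
    exact ⟨e4, e5⟩

theorem ap {a b c d p1 p2 p3 p4 : ℤ} (h1 : 0 < p1) (h2 : 0 < p2) (h3 : 0 < p3) (h4 : 0 < p4)
    (hp : a * p1 + b * p2 + c * p3 + d * p4 = 0) {v1 v2 v3 v4 : ℤ} {k : ℕ}
    (hv : a * v1 + b * v2 + c * v3 + d * v4 = 2 ^ k)
    (hN0 : 0 < a ^ 2 + b ^ 2 + c ^ 2 + d ^ 2) {m : ℕ} (hm : 0 < m) :
    ∃ A M : ℕ, 0 < M ∧ ∀ j : ℕ, ((A + M * j : ℕ) : ℤ) ≡ v1 ^ 2 + v2 ^ 2 + v3 ^ 2 + v4 ^ 2 [ZMOD m] ∧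
      Rep a b c d (A + M * j) := by
  by_cases hW : 0 < (-b * v1 + a * v2 + d * v3 - c * v4) ^ 2 +
      (-c * v1 - d * v2 + a * v3 + b * v4) ^ 2 + (-d * v1 + c * v2 - b * v3 + a * v4) ^ 2
  · exact ap_core h1 h2 h3 h4 hp hv hN0 hW hm
  · have k1 : -b * v1 + a * v2 + d * v3 - c * v4 = 0 := by
      have e1 := sq_nonneg (-b * v1 + a * v2 + d * v3 - c * v4)
      have e2 := sq_nonneg (-c * v1 - d * v2 + a * v3 + b * v4)
      have e3 := sq_nonneg (-d * v1 + c * v2 - b * v3 + a * v4)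
      have e4 : (-b * v1 + a * v2 + d * v3 - c * v4) ^ 2 = 0 := by linarith
      exact (pow_eq_zero_iff two_ne_zero).1 e4
    have hmz : (0 : ℤ) < m := by exact_mod_cast hm
    have hv' : a * (v1 + m * -b) + b * (v2 + m * a) + c * (v3 + m * d) + d * (v4 + m * -c) =
        2 ^ k := by
      rw [← hv]
      ring
    have hW' : 0 < (-b * (v1 + m * -b) + a * (v2 + m * a) + d * (v3 + m * d) - c * (v4 + m * -c)) ^ 2 +
        (-c * (v1 + m * -b) - d * (v2 + m * a) + a * (v3 + m * d) + b * (v4 + m * -c)) ^ 2 +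
        (-d * (v1 + m * -b) + c * (v2 + m * a) - b * (v3 + m * d) + a * (v4 + m * -c)) ^ 2 := by
      have e1 : -b * (v1 + m * -b) + a * (v2 + m * a) + d * (v3 + m * d) - c * (v4 + m * -c) =
          m * (a ^ 2 + b ^ 2 + c ^ 2 + d ^ 2) := by linear_combination k1
      rw [e1]
      have e2 : 0 < m * (a ^ 2 + b ^ 2 + c ^ 2 + d ^ 2) := mul_pos hmz hN0
      have e3 := pow_pos e2 2
      have e4 := sq_nonneg (-c * (v1 + m * -b) - d * (v2 + m * a) + a * (v3 + m * d) +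
        b * (v4 + m * -c))
      have e5 := sq_nonneg (-d * (v1 + m * -b) + c * (v2 + m * a) - b * (v3 + m * d) +
        a * (v4 + m * -c))
      linarith
    obtain ⟨A, M, hM, hj⟩ := ap_core h1 h2 h3 h4 hp hv' hN0 hW' hm
    refine ⟨A, M, hM, fun j => ⟨(hj j).1.trans ?_, (hj j).2⟩⟩
    have hmod : ∀ v l : ℤ, (v + m * l) ^ 2 ≡ v ^ 2 [ZMOD m] := fun v l =>
      Int.ModEq.pow 2 (Int.modEq_iff_dvd.2 ⟨-l, by ring⟩)
    exact (((hmod _ _).add (hmod _ _)).add (hmod _ _)).add (hmod _ _)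

end Pool.Agent.Lib.MP_0d68c6_nt
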