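import Mathlib

/-!
The number of orthogonal pairs of vectors in a box of `ℤ³`.
-/

namespace Pool.Agent.Lib.MP_0d68c6_nt

open Finset

/-- The integers of absolute value at most `M`. -/
noncomputable def bx (M : ℕ) : Finset ℤ := Icc (-(M : ℤ)) M

theorem mem_bx {M : ℕ} {x : ℤ} : x ∈ bx M ↔ x.natAbs ≤ M := by
  unfold bx
  rw [mem_Icc]
  omega

/-- A set of integers in one residue class. -/
theorem one_dim {M q : ℕ} (hq : 1 ≤ q) (hqM : q ≤ M) {S : Finset ℤ} (hS : S ⊆ bx M)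
    (h : ∀ x ∈ S, ∀ y ∈ S, (q : ℤ) ∣ x - y) : S.card * q ≤ 4 * M := by
  have hq0 : (0 : ℤ) < q := by exact_mod_cast hq
  have hinj : Set.InjOn (fun x : ℤ => x / (q : ℤ)) (S : Set ℤ) := by
    intro x hx y hy hxy
    simp only at hxy
    obtain ⟨k, hk⟩ := h x (mem_coe.1 hx) y (mem_coe.1 hy)
    have h1 : x = y + q * k := by linarith
    rw [h1, Int.add_mul_ediv_left _ _ hq0.ne'] at hxy
    have h2 : k = 0 := by linarith
    rw [h1, h2]
    ring
  have himg : S.image (fun x : ℤ => x / (q : ℤ)) ⊆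
      Icc (-((M / q : ℕ) : ℤ) - 1) ((M / q : ℕ) : ℤ) := by
    intro y hy
    obtain ⟨x, hx, rfl⟩ := mem_image.1 hy
    have hb := mem_Icc.1 (hS hx)
    have e : ((M / q : ℕ) : ℤ) = (M : ℤ) / q := Int.natCast_div M q
    have hM : (M : ℤ) < q * ((M : ℤ) / q) + q := by
      have := Int.emod_lt_of_pos (M : ℤ) hq0
      have h2 := Int.mul_ediv_add_emod (M : ℤ) q
      linarith
    rw [mem_Icc, e]
    refine ⟨?_, Int.ediv_le_ediv hq0 hb.2⟩
    rw [Int.le_ediv_iff_mul_le hq0]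
    nlinarith
  have h1 : S.card = (S.image (fun x : ℤ => x / (q : ℤ))).card := (card_image_of_injOn hinj).symm
  have h2 : S.card ≤ 2 * (M / q) + 2 := by
    rw [h1]
    refine (card_le_card himg).trans ?_
    rw [Int.card_Icc]
    omega
  have h3 : M / q * q ≤ M := Nat.div_mul_le_self M q
  calc S.card * q ≤ (2 * (M / q) + 2) * q := Nat.mul_le_mul_right _ h2
    _ = 2 * (M / q * q) + 2 * q := by ring
    _ ≤ 4 * M := by omega

theorem div_gcd_dvd {g a x : ℕ} (hg : 0 < g) (h : g ∣ a * x) : g / Nat.gcd a g ∣ x := by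
  obtain ⟨a', g', hc, ha, hg'⟩ := Nat.exists_coprime a g
  have hd : 0 < Nat.gcd a g := Nat.gcd_pos_of_pos_right _ hg
  have e : g / Nat.gcd a g = g' := Nat.div_eq_of_eq_mul_left hd hg'
  rw [e]
  have h1 : g' * Nat.gcd a g ∣ a' * x * Nat.gcd a g := by
    have h2 : a' * x * Nat.gcd a g = a * x := by
      conv_rhs => rw [ha]
      ring
    rw [h2, ← hg']
    exact h
  exact hc.symm.dvd_of_dvd_mul_left (Nat.dvd_of_mul_dvd_mul_right hd h1)

/-- The vectors of the box orthogonal to `(a, b, c)`. -/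
noncomputable def orth (M : ℕ) (a b c : ℤ) : Finset (ℤ × ℤ × ℤ) :=
  (bx M ×ˢ (bx M ×ˢ bx M)).filter fun s => a * s.1 + b * s.2.1 + c * s.2.2 = 0

/-- The number of the vectors orthogonal to one vector. -/
theorem orth_card {M : ℕ} {a b c : ℤ} (ha : a ≠ 0) (haM : a.natAbs ≤ M) :
    a.natAbs * (orth M a b c).card ≤
      16 * M ^ 2 * Nat.gcd b.natAbs (Nat.gcd c.natAbs a.natAbs) := by
  classical
  have ha0 : 0 < a.natAbs := Int.natAbs_pos.2 ha
  obtain ⟨g2, hg2⟩ : ∃ g, g = Nat.gcd c.natAbs a.natAbs := ⟨_, rfl⟩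
  obtain ⟨G, hG⟩ : ∃ g, g = Nat.gcd b.natAbs g2 := ⟨_, rfl⟩
  have hg20 : 0 < g2 := by rw [hg2]; exact Nat.gcd_pos_of_pos_right _ ha0
  have hG0 : 0 < G := by rw [hG]; exact Nat.gcd_pos_of_pos_right _ hg20
  have hg2a : g2 ∣ a.natAbs := by rw [hg2]; exact Nat.gcd_dvd_right _ _
  have hg2c : g2 ∣ c.natAbs := by rw [hg2]; exact Nat.gcd_dvd_left _ _
  have hGg : G ∣ g2 := by rw [hG]; exact Nat.gcd_dvd_right _ _
  obtain ⟨q1, hq1⟩ : ∃ q, q = g2 / G := ⟨_, rfl⟩
  obtain ⟨q2, hq2⟩ : ∃ q, q = a.natAbs / g2 := ⟨_, rfl⟩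
  have e1 : q1 * G = g2 := by rw [hq1]; exact Nat.div_mul_cancel hGg
  have e2 : q2 * g2 = a.natAbs := by rw [hq2]; exact Nat.div_mul_cancel hg2a
  have hq10 : 1 ≤ q1 := by
    rcases Nat.eq_zero_or_pos q1 with h | h
    · rw [h, Nat.zero_mul] at e1
      omega
    · exact h
  have hq20 : 1 ≤ q2 := by
    rcases Nat.eq_zero_or_pos q2 with h | h
    · rw [h, Nat.zero_mul] at e2
      omega
    · exact h
  have hq1M : q1 ≤ M := by
    have h1 : q1 ≤ g2 := by rw [hq1]; exact Nat.div_le_self _ _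
    exact h1.trans ((Nat.le_of_dvd ha0 hg2a).trans haM)
  have hq2M : q2 ≤ M := by
    have h1 : q2 ≤ a.natAbs := by rw [hq2]; exact Nat.div_le_self _ _
    exact h1.trans haM
  have hmem : ∀ s ∈ orth M a b c, s.1 ∈ bx M ∧ s.2.1 ∈ bx M ∧ s.2.2 ∈ bx M ∧
      a * s.1 + b * s.2.1 + c * s.2.2 = 0 := by
    intro s hs
    unfold orth at hs
    rw [mem_filter, mem_product, mem_product] at hs
    exact ⟨hs.1.1, hs.1.2.1, hs.1.2.2, hs.2⟩
  -- the second coordinates
  have hP : ((orth M a b c).image fun s => s.2.1).card * q1 ≤ 4 * M := by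
    refine one_dim hq10 hq1M ?_ ?_
    · intro x hx
      obtain ⟨s, hs, rfl⟩ := mem_image.1 hx
      exact (hmem s hs).2.1
    · intro x hx y hy
      obtain ⟨s, hs, rfl⟩ := mem_image.1 hx
      obtain ⟨s', hs', rfl⟩ := mem_image.1 hy
      have h1 := (hmem s hs).2.2.2
      have h2 := (hmem s' hs').2.2.2
      have h3 : (g2 : ℤ) ∣ b * (s.2.1 - s'.2.1) := by
        have h4 : b * (s.2.1 - s'.2.1) = -(a * (s.1 - s'.1) + c * (s.2.2 - s'.2.2)) := by linarith
        rw [h4, dvd_neg]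
        refine dvd_add (Dvd.dvd.mul_right ?_ _) (Dvd.dvd.mul_right ?_ _)
        · exact Int.natCast_dvd.2 hg2a
        · exact Int.natCast_dvd.2 hg2c
      have h5 : g2 ∣ b.natAbs * (s.2.1 - s'.2.1).natAbs := by
        rw [← Int.natAbs_mul]
        exact Int.natCast_dvd.1 h3
      have h6 := div_gcd_dvd hg20 h5
      rw [← hG, ← hq1] at h6
      exact Int.natCast_dvd.2 h6
  have hfib : ∀ y ∈ (orth M a b c).image fun s => s.2.1,
      ((orth M a b c).filter fun s => s.2.1 = y).card ≤ 4 * M / q2 := by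
    intro y _
    rw [Nat.le_div_iff_mul_le hq20]
    have hinj : Set.InjOn (fun s : ℤ × ℤ × ℤ => s.2.2)
        ((orth M a b c).filter fun s => s.2.1 = y : Set (ℤ × ℤ × ℤ)) := by
      intro s hs s' hs' hss
      obtain ⟨h1, h2⟩ := mem_filter.1 (mem_coe.1 hs)
      obtain ⟨h3, h4⟩ := mem_filter.1 (mem_coe.1 hs')
      simp only at hss
      have h5 := (hmem s h1).2.2.2
      have h6 := (hmem s' h3).2.2.2
      rw [h2, hss] at h5
      rw [h4] at h6
      have h7 : a * s.1 = a * s'.1 := by linarith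
      have h8 := mul_left_cancel₀ ha h7
      exact Prod.ext h8 (Prod.ext (h2.trans h4.symm) hss)
    rw [← card_image_of_injOn hinj]
    refine one_dim hq20 hq2M ?_ ?_
    · intro x hx
      obtain ⟨s, hs, rfl⟩ := mem_image.1 hx
      exact (hmem s (mem_filter.1 hs).1).2.2.1
    · intro x hx z hz
      obtain ⟨s, hs, rfl⟩ := mem_image.1 hx
      obtain ⟨s', hs', rfl⟩ := mem_image.1 hz
      obtain ⟨h1, h2⟩ := mem_filter.1 hs
      obtain ⟨h3, h4⟩ := mem_filter.1 hs'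
      have h5 := (hmem s h1).2.2.2
      have h6 := (hmem s' h3).2.2.2
      rw [h2] at h5
      rw [h4] at h6
      have h7 : a ∣ c * (s.2.2 - s'.2.2) := ⟨-(s.1 - s'.1), by linarith⟩
      have h8 : a.natAbs ∣ c.natAbs * (s.2.2 - s'.2.2).natAbs := by
        rw [← Int.natAbs_mul]
        exact Int.natAbs_dvd_natAbs.2 h7
      have h9 := div_gcd_dvd ha0 h8
      rw [← hg2, ← hq2] at h9
      exact Int.natCast_dvd.2 h9
  have hcard := card_le_mul_card_image (orth M a b c) (4 * M / q2) hfib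
  have h3 : 4 * M / q2 * q2 ≤ 4 * M := Nat.div_mul_le_self _ _
  rw [← hg2, ← hG]
  calc a.natAbs * (orth M a b c).card = (q1 * q2 * (orth M a b c).card) * G := by
        rw [← e2, ← e1]
        ring
    _ ≤ (q1 * q2 * (4 * M / q2 * ((orth M a b c).image fun s => s.2.1).card)) * G := by
        gcongr
    _ = ((4 * M / q2 * q2) * (((orth M a b c).image fun s => s.2.1).card * q1)) * G := by ring
    _ ≤ ((4 * M) * (4 * M)) * G := by gcongr
    _ = 16 * M ^ 2 * G := by ring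

/-- The sum of the greatest common divisors. -/
theorem gcd_sum {m : ℕ} (hm : 1 ≤ m) :
    ∑ b ∈ bx m, ∑ c ∈ bx m, Nat.gcd b.natAbs (Nat.gcd c.natAbs m) ≤
      16 * m * ∑ e ∈ m.divisors, e := by
  classical
  have h1 : ∀ b c : ℤ, Nat.gcd b.natAbs (Nat.gcd c.natAbs m) ≤
      ∑ e ∈ m.divisors, (if e ∣ b.natAbs then 1 else 0) * (if e ∣ c.natAbs then 1 else 0) * e := by
    intro b c
    obtain ⟨G, hG⟩ : ∃ g, g = Nat.gcd b.natAbs (Nat.gcd c.natAbs m) := ⟨_, rfl⟩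
    rw [← hG]
    have hGb : G ∣ b.natAbs := by rw [hG]; exact Nat.gcd_dvd_left _ _
    have hGm : G ∣ Nat.gcd c.natAbs m := by rw [hG]; exact Nat.gcd_dvd_right _ _
    have hGd : G ∈ m.divisors := Nat.mem_divisors.2 ⟨hGm.trans (Nat.gcd_dvd_right _ _), by omega⟩
    have h2 := single_le_sum (f := fun e => (if e ∣ b.natAbs then 1 else 0) *
      (if e ∣ c.natAbs then 1 else 0) * e) (fun _ _ => Nat.zero_le _) hGd
    simp only [hGb, hGm.trans (Nat.gcd_dvd_left _ _), if_true, one_mul] at h2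
    exact h2
  have h2 : ∀ e ∈ m.divisors, (∑ b ∈ bx m, if e ∣ b.natAbs then 1 else 0) * e ≤ 4 * m := by
    intro e he
    have he0 := Nat.pos_of_mem_divisors he
    have hem := Nat.divisor_le he
    rw [← card_filter]
    refine one_dim he0 hem (filter_subset _ _) ?_
    intro x hx y hy
    have h3 := (mem_filter.1 hx).2
    have h4 := (mem_filter.1 hy).2
    exact dvd_sub (Int.natCast_dvd.2 h3) (Int.natCast_dvd.2 h4)
  calc ∑ b ∈ bx m, ∑ c ∈ bx m, Nat.gcd b.natAbs (Nat.gcd c.natAbs m)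
      ≤ ∑ b ∈ bx m, ∑ c ∈ bx m, ∑ e ∈ m.divisors,
          (if e ∣ b.natAbs then 1 else 0) * (if e ∣ c.natAbs then 1 else 0) * e :=
        sum_le_sum fun b _ => sum_le_sum fun c _ => h1 b c
    _ = ∑ e ∈ m.divisors, (∑ b ∈ bx m, if e ∣ b.natAbs then 1 else 0) *
          (∑ c ∈ bx m, if e ∣ c.natAbs then 1 else 0) * e := by
        rw [sum_congr rfl fun b _ => sum_comm, sum_comm]
        refine sum_congr rfl fun e _ => ?_
        rw [sum_mul_sum, sum_mul]
        exact sum_congr rfl fun b _ => by rw [sum_mul]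
    _ ≤ ∑ e ∈ m.divisors, 16 * m * (m / e) := by
        refine sum_le_sum fun e he => ?_
        have he0 := Nat.pos_of_mem_divisors he
        have h3 := h2 e he
        have h4 : m / e * e = m := Nat.div_mul_cancel (Nat.dvd_of_mem_divisors he)
        refine Nat.le_of_mul_le_mul_right ?_ he0
        calc (∑ b ∈ bx m, if e ∣ b.natAbs then 1 else 0) *
              (∑ c ∈ bx m, if e ∣ c.natAbs then 1 else 0) * e * e
            = ((∑ b ∈ bx m, if e ∣ b.natAbs then 1 else 0) * e) *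
              ((∑ c ∈ bx m, if e ∣ c.natAbs then 1 else 0) * e) := by ring
          _ ≤ (4 * m) * (4 * m) := Nat.mul_le_mul h3 h3
          _ = 16 * m * (m / e * e) := by rw [h4]; ring
          _ = 16 * m * (m / e) * e := by ring
    _ = 16 * m * ∑ e ∈ m.divisors, e := by
        rw [← mul_sum, Nat.sum_div_divisors m (fun x => x)]

/-- The sum of the divisors. -/
theorem sigma_sum (M : ℕ) : ∑ m ∈ Ioc 0 M, ∑ e ∈ m.divisors, e ≤ M ^ 2 := by
  classical
  calc ∑ m ∈ Ioc 0 M, ∑ e ∈ m.divisors, e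
      = ∑ m ∈ Ioc 0 M, ∑ e ∈ Ioc 0 M, if e ∣ m then e else 0 := by
        refine sum_congr rfl fun m hm => ?_
        rw [mem_Ioc] at hm
        rw [← sum_filter]
        refine sum_congr ?_ fun _ _ => rfl
        ext e
        rw [Nat.mem_divisors, mem_filter, mem_Ioc]
        constructor
        · rintro ⟨h1, h2⟩
          exact ⟨⟨Nat.pos_of_dvd_of_pos h1 hm.1, (Nat.le_of_dvd hm.1 h1).trans hm.2⟩, h1⟩
        · rintro ⟨-, h1⟩
          exact ⟨h1, by omega⟩
    _ = ∑ e ∈ Ioc 0 M, ∑ m ∈ Ioc 0 M, if e ∣ m then e else 0 := sum_comm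
    _ ≤ ∑ e ∈ Ioc 0 M, M := by
        refine sum_le_sum fun e _ => ?_
        rw [← sum_filter, sum_const, smul_eq_mul, Nat.Ioc_filter_dvd_card_eq_div]
        exact Nat.div_mul_le_self _ _
    _ = M ^ 2 := by
        rw [sum_const, Nat.card_Ioc, smul_eq_mul, Nat.sub_zero, pow_two]

/-- The orthogonal pairs whose first vector has its largest coordinate in the first place. -/
noncomputable def dom (M : ℕ) : Finset ((ℤ × ℤ × ℤ) × (ℤ × ℤ × ℤ)) :=
  (((bx M).filter fun a => a ≠ 0).biUnion fun a => (bx a.natAbs).biUnion fun b =>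
    (bx a.natAbs).biUnion fun c => (orth M a b c).image fun s => ((a, b, c), s))

theorem mem_dom {M : ℕ} {a b c s t r : ℤ} (ha : a ≠ 0) (haM : a.natAbs ≤ M)
    (hb : b.natAbs ≤ a.natAbs) (hc : c.natAbs ≤ a.natAbs) (hs : s.natAbs ≤ M) (ht : t.natAbs ≤ M)
    (hr : r.natAbs ≤ M) (h : a * s + b * t + c * r = 0) : ((a, b, c), (s, t, r)) ∈ dom M := by
  classical
  unfold dom
  rw [mem_biUnion]
  refine ⟨a, mem_filter.2 ⟨mem_bx.2 haM, ha⟩, ?_⟩
  rw [mem_biUnion]
  refine ⟨b, mem_bx.2 hb, ?_⟩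
  rw [mem_biUnion]
  refine ⟨c, mem_bx.2 hc, ?_⟩
  rw [mem_image]
  refine ⟨(s, t, r), ?_, rfl⟩
  unfold orth
  rw [mem_filter, mem_product, mem_product]
  exact ⟨⟨mem_bx.2 hs, mem_bx.2 ht, mem_bx.2 hr⟩, h⟩

theorem dom_card (M : ℕ) : (dom M).card ≤ 512 * M ^ 4 := by
  classical
  have h1 : (dom M).card ≤ ∑ a ∈ (bx M).filter fun a => a ≠ 0, ∑ b ∈ bx a.natAbs,
      ∑ c ∈ bx a.natAbs, (orth M a b c).card := by
    unfold dom
    refine card_biUnion_le.trans (sum_le_sum fun a _ => ?_)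
    refine card_biUnion_le.trans (sum_le_sum fun b _ => ?_)
    exact card_biUnion_le.trans (sum_le_sum fun c _ => card_image_le)
  have h2 : ∀ a ∈ (bx M).filter fun a => a ≠ 0, ∑ b ∈ bx a.natAbs, ∑ c ∈ bx a.natAbs,
      (orth M a b c).card ≤ 256 * M ^ 2 * ∑ e ∈ a.natAbs.divisors, e := by
    intro a ha
    obtain ⟨h3, h4⟩ := mem_filter.1 ha
    have haM := mem_bx.1 h3
    have ha0 : 0 < a.natAbs := Int.natAbs_pos.2 h4
    refine Nat.le_of_mul_le_mul_left ?_ ha0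
    calc a.natAbs * ∑ b ∈ bx a.natAbs, ∑ c ∈ bx a.natAbs, (orth M a b c).card
        = ∑ b ∈ bx a.natAbs, ∑ c ∈ bx a.natAbs, a.natAbs * (orth M a b c).card := by
          rw [mul_sum]
          exact sum_congr rfl fun b _ => mul_sum _ _ _
      _ ≤ ∑ b ∈ bx a.natAbs, ∑ c ∈ bx a.natAbs,
            16 * M ^ 2 * Nat.gcd b.natAbs (Nat.gcd c.natAbs a.natAbs) :=
          sum_le_sum fun b _ => sum_le_sum fun c _ => orth_card h4 haM
      _ = 16 * M ^ 2 * ∑ b ∈ bx a.natAbs, ∑ c ∈ bx a.natAbs,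
            Nat.gcd b.natAbs (Nat.gcd c.natAbs a.natAbs) := by
          rw [mul_sum]
          exact sum_congr rfl fun b _ => (mul_sum _ _ _).symm
      _ ≤ 16 * M ^ 2 * (16 * a.natAbs * ∑ e ∈ a.natAbs.divisors, e) :=
          Nat.mul_le_mul_left _ (gcd_sum ha0)
      _ = a.natAbs * (256 * M ^ 2 * ∑ e ∈ a.natAbs.divisors, e) := by ring
  have h3 : ∑ a ∈ (bx M).filter fun a => a ≠ 0, ∑ e ∈ a.natAbs.divisors, e ≤ 2 * M ^ 2 := by
    have h4 : ((bx M).filter fun a => a ≠ 0) ⊆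
        ((Ioc 0 M).image fun m : ℕ => (m : ℤ)) ∪ (Ioc 0 M).image fun m : ℕ => -(m : ℤ) := by
      intro a ha
      obtain ⟨h5, h6⟩ := mem_filter.1 ha
      have h7 := mem_bx.1 h5
      have h8 : 0 < a.natAbs := Int.natAbs_pos.2 h6
      rw [mem_union, mem_image, mem_image]
      rcases Int.natAbs_eq a with h9 | h9
      · exact Or.inl ⟨a.natAbs, mem_Ioc.2 ⟨h8, h7⟩, h9.symm⟩
      · exact Or.inr ⟨a.natAbs, mem_Ioc.2 ⟨h8, h7⟩, h9.symm⟩
    have h5 : ∑ a ∈ (Ioc 0 M).image (fun m : ℕ => (m : ℤ)), ∑ e ∈ a.natAbs.divisors, e =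
        ∑ m ∈ Ioc 0 M, ∑ e ∈ m.divisors, e := by
      rw [sum_image]
      · exact sum_congr rfl fun m _ => by rw [Int.natAbs_natCast]
      · intro x _ y _ hxy
        simp only at hxy
        omega
    have h6 : ∑ a ∈ (Ioc 0 M).image (fun m : ℕ => -(m : ℤ)), ∑ e ∈ a.natAbs.divisors, e =
        ∑ m ∈ Ioc 0 M, ∑ e ∈ m.divisors, e := by
      rw [sum_image]
      · exact sum_congr rfl fun m _ => by rw [Int.natAbs_neg, Int.natAbs_natCast]
      · intro x _ y _ hxy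
        simp only at hxy
        omega
    have h7 := sigma_sum M
    have h8 : ∑ a ∈ ((Ioc 0 M).image fun m : ℕ => (m : ℤ)) ∪ (Ioc 0 M).image fun m : ℕ => -(m : ℤ),
        ∑ e ∈ a.natAbs.divisors, e ≤
        ∑ a ∈ (Ioc 0 M).image (fun m : ℕ => (m : ℤ)), ∑ e ∈ a.natAbs.divisors, e +
          ∑ a ∈ (Ioc 0 M).image (fun m : ℕ => -(m : ℤ)), ∑ e ∈ a.natAbs.divisors, e := by
      rw [← sum_union_inter]
      exact Nat.le_add_right _ _
    have h9 := sum_le_sum_of_subset (f := fun a : ℤ => ∑ e ∈ a.natAbs.divisors, e) h4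
    omega
  calc (dom M).card ≤ _ := h1
    _ ≤ ∑ a ∈ (bx M).filter fun a => a ≠ 0, 256 * M ^ 2 * ∑ e ∈ a.natAbs.divisors, e :=
        sum_le_sum h2
    _ = 256 * M ^ 2 * ∑ a ∈ (bx M).filter fun a => a ≠ 0, ∑ e ∈ a.natAbs.divisors, e := by
        rw [mul_sum]
    _ ≤ 256 * M ^ 2 * (2 * M ^ 2) := Nat.mul_le_mul_left _ h3
    _ = 512 * M ^ 4 := by ring

end Pool.Agent.Lib.MP_0d68c6_nt
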