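import Pool.Agent.Lib.MP_0d68c6_nt.Rot

/-!
Directions: finitely many integral quaternions in a residue class move every direction into an
open cone.
-/

namespace Pool.Agent.Lib.MP_0d68c6_nt

open Filter Topology

/-- The conjugate of `w` by `q`. -/
def rr (q : ℝ × ℝ × ℝ × ℝ) (w : ℝ × ℝ × ℝ) : ℝ × ℝ × ℝ :=
  (r1 q.1 q.2.1 q.2.2.1 q.2.2.2 w.1 w.2.1 w.2.2, r2 q.1 q.2.1 q.2.2.1 q.2.2.2 w.1 w.2.1 w.2.2,
    r3 q.1 q.2.1 q.2.2.1 q.2.2.2 w.1 w.2.1 w.2.2)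

/-- The real quaternion of an integral one. -/
def qr (q : ℤ × ℤ × ℤ × ℤ) : ℝ × ℝ × ℝ × ℝ := (q.1, q.2.1, q.2.2.1, q.2.2.2)

theorem rr_cont_left (w : ℝ × ℝ × ℝ) : Continuous fun q => rr q w := by
  unfold rr r1 r2 r3
  fun_prop

theorem rr_cont_right (q : ℝ × ℝ × ℝ × ℝ) : Continuous fun w => rr q w := by
  unfold rr r1 r2 r3
  fun_prop

theorem rr_smul_left (t : ℝ) (q : ℝ × ℝ × ℝ × ℝ) (w : ℝ × ℝ × ℝ) :
    rr (t • q) w = (t ^ 2) • rr q w := by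
  simp only [rr, r1, r2, r3, Prod.smul_fst, Prod.smul_snd, smul_eq_mul, Prod.smul_mk]
  refine Prod.ext ?_ (Prod.ext ?_ ?_) <;> simp only <;> ring

theorem rr_smul_right (t : ℝ) (q : ℝ × ℝ × ℝ × ℝ) (w : ℝ × ℝ × ℝ) :
    rr q (t • w) = t • rr q w := by
  simp only [rr, r1, r2, r3, Prod.smul_fst, Prod.smul_snd, smul_eq_mul, Prod.smul_mk]
  refine Prod.ext ?_ (Prod.ext ?_ ?_) <;> simp only <;> ring

/-- The sum of the squares. -/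
def n3 (w : ℝ × ℝ × ℝ) : ℝ := w.1 ^ 2 + w.2.1 ^ 2 + w.2.2 ^ 2
def n4 (q : ℝ × ℝ × ℝ × ℝ) : ℝ := q.1 ^ 2 + q.2.1 ^ 2 + q.2.2.1 ^ 2 + q.2.2.2 ^ 2

theorem n3_smul (t : ℝ) (w : ℝ × ℝ × ℝ) : n3 (t • w) = t ^ 2 * n3 w := by
  simp only [n3, Prod.smul_fst, Prod.smul_snd, smul_eq_mul]; ring

theorem n4_smul (t : ℝ) (w : ℝ × ℝ × ℝ × ℝ) : n4 (t • w) = t ^ 2 * n4 w := by
  simp only [n4, Prod.smul_fst, Prod.smul_snd, smul_eq_mul]; ring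

theorem n3_pos {w : ℝ × ℝ × ℝ} (h : w ≠ 0) : 0 < n3 w := by
  by_contra hcon
  push Not at hcon
  unfold n3 at hcon
  apply h
  have h1 : w.1 = 0 := by nlinarith [sq_nonneg w.1, sq_nonneg w.2.1, sq_nonneg w.2.2]
  have h2 : w.2.1 = 0 := by nlinarith [sq_nonneg w.1, sq_nonneg w.2.1, sq_nonneg w.2.2]
  have h3 : w.2.2 = 0 := by nlinarith [sq_nonneg w.1, sq_nonneg w.2.1, sq_nonneg w.2.2]
  exact Prod.ext h1 (Prod.ext h2 h3)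

/-- An open cone. -/
structure OpenCone (𝒞 : Set (ℝ × ℝ × ℝ)) : Prop where
  op : IsOpen 𝒞
  ne : 𝒞.Nonempty
  cone : ∀ w ∈ 𝒞, ∀ t : ℝ, 0 < t → t • w ∈ 𝒞

theorem OpenCone.unit {𝒞 : Set (ℝ × ℝ × ℝ)} (h : OpenCone 𝒞) : ∃ u ∈ 𝒞, n3 u = 1 := by
  have hd : Dense ({0}ᶜ : Set (ℝ × ℝ × ℝ)) := dense_compl_singleton 0
  obtain ⟨u, hu, hu0⟩ := hd.inter_open_nonempty 𝒞 h.op h.ne
  have hu1 : 0 < n3 u := n3_pos hu0
  refine ⟨(1 / √(n3 u)) • u, h.cone u hu _ (by positivity), ?_⟩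
  rw [n3_smul, div_pow, one_pow, Real.sq_sqrt hu1.le]
  field_simp

theorem floor_tendsto (x : ℤ) {m : ℕ} (hm : 0 < m) (g : ℝ) :
    Tendsto (fun n : ℕ => ((x + m * ⌊(n : ℝ) * g / m⌋ : ℤ) : ℝ) / n) atTop (𝓝 g) := by
  have hm0 : (0 : ℝ) < m := by exact_mod_cast hm
  have h1 : Tendsto (fun n : ℕ => g + ((x : ℝ) - m) / n) atTop (𝓝 g) := by
    have := (tendsto_const_div_atTop_nhds_zero_nat ((x : ℝ) - m)).const_add g
    rwa [add_zero] at this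
  have h2 : Tendsto (fun n : ℕ => g + (x : ℝ) / n) atTop (𝓝 g) := by
    have := (tendsto_const_div_atTop_nhds_zero_nat (x : ℝ)).const_add g
    rwa [add_zero] at this
  refine tendsto_of_tendsto_of_tendsto_of_le_of_le' h1 h2 ?_ ?_
  · filter_upwards [eventually_gt_atTop 0] with n hn
    have hn0 : (0 : ℝ) < n := by exact_mod_cast hn
    have h3 := Int.sub_one_lt_floor ((n : ℝ) * g / m)
    have h4 : (n : ℝ) * g - m < m * ⌊(n : ℝ) * g / m⌋ := by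
      have h5 := mul_lt_mul_of_pos_left h3 hm0
      have h6 : (m : ℝ) * ((n : ℝ) * g / m - 1) = n * g - m := by field_simp
      linarith
    rw [le_div_iff₀ hn0]
    push_cast
    have h5 : (g + ((x : ℝ) - m) / n) * n = n * g + (x - m) := by field_simp
    rw [h5]
    linarith
  · filter_upwards [eventually_gt_atTop 0] with n hn
    have hn0 : (0 : ℝ) < n := by exact_mod_cast hn
    have h3 := Int.floor_le ((n : ℝ) * g / m)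
    have h4 : (m : ℝ) * ⌊(n : ℝ) * g / m⌋ ≤ n * g := by
      have h5 := mul_le_mul_of_nonneg_left h3 hm0.le
      have h6 : (m : ℝ) * ((n : ℝ) * g / m) = n * g := by field_simp
      linarith
    rw [div_le_iff₀ hn0]
    push_cast
    have h5 : (g + (x : ℝ) / n) * n = n * g + x := by field_simp
    rw [h5]
    linarith

/-- The residue class of a quaternion. -/
def Cls (m : ℕ) (q0 : ℤ × ℤ × ℤ × ℤ) (q : ℤ × ℤ × ℤ × ℤ) : Prop :=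
  (m : ℤ) ∣ q.1 - q0.1 ∧ (m : ℤ) ∣ q.2.1 - q0.2.1 ∧ (m : ℤ) ∣ q.2.2.1 - q0.2.2.1 ∧
    (m : ℤ) ∣ q.2.2.2 - q0.2.2.2

theorem dir_one {𝒞 : Set (ℝ × ℝ × ℝ)} (h : OpenCone 𝒞) {m : ℕ} (hm : 0 < m)
    (q0 : ℤ × ℤ × ℤ × ℤ) {w : ℝ × ℝ × ℝ} (hw : n3 w = 1) :
    ∃ q : ℤ × ℤ × ℤ × ℤ, Cls m q0 q ∧ 0 < n4 (qr q) ∧ rr (qr q) w ∈ 𝒞 := by
  obtain ⟨u, hu, hu1⟩ := h.unit
  have hlen : u.1 ^ 2 + u.2.1 ^ 2 + u.2.2 ^ 2 = w.1 ^ 2 + w.2.1 ^ 2 + w.2.2 ^ 2 := by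
    unfold n3 at hu1 hw
    rw [hu1, hw]
  have hpos : 0 < u.1 ^ 2 + u.2.1 ^ 2 + u.2.2 ^ 2 := by
    unfold n3 at hu1
    rw [hu1]
    exact one_pos
  obtain ⟨a, b, c, d, hN, k1, k2, k3⟩ := real_conj hlen hpos
  have hg : rr (a, b, c, d) w ∈ 𝒞 := by
    have e : rr (a, b, c, d) w = (a ^ 2 + b ^ 2 + c ^ 2 + d ^ 2) • u := by
      unfold rr
      rw [k1, k2, k3]
      rfl
    rw [e]
    exact h.cone u hu _ hN
  obtain ⟨f, hf⟩ : ∃ f : ℕ → ℤ × ℤ × ℤ × ℤ, f = fun n : ℕ => (q0.1 + m * ⌊(n : ℝ) * a / m⌋,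
    q0.2.1 + m * ⌊(n : ℝ) * b / m⌋, q0.2.2.1 + m * ⌊(n : ℝ) * c / m⌋,
    q0.2.2.2 + m * ⌊(n : ℝ) * d / m⌋) := ⟨_, rfl⟩
  have hlim : Tendsto (fun n : ℕ => (1 / (n : ℝ)) • qr (f n)) atTop (𝓝 (a, b, c, d)) := by
    have e : (fun n : ℕ => (1 / (n : ℝ)) • qr (f n)) = fun n : ℕ =>
        (((q0.1 + m * ⌊(n : ℝ) * a / m⌋ : ℤ) : ℝ) / n,
        ((q0.2.1 + m * ⌊(n : ℝ) * b / m⌋ : ℤ) : ℝ) / n,
        ((q0.2.2.1 + m * ⌊(n : ℝ) * c / m⌋ : ℤ) : ℝ) / n,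
        ((q0.2.2.2 + m * ⌊(n : ℝ) * d / m⌋ : ℤ) : ℝ) / n) := by
      funext n
      rw [hf]
      simp only [qr, Prod.smul_mk, smul_eq_mul, one_div_mul_eq_div]
    rw [e]
    exact (floor_tendsto _ hm a).prodMk_nhds ((floor_tendsto _ hm b).prodMk_nhds
      ((floor_tendsto _ hm c).prodMk_nhds (floor_tendsto _ hm d)))
  have h1 : ∀ᶠ n : ℕ in atTop, rr ((1 / (n : ℝ)) • qr (f n)) w ∈ 𝒞 :=
    (((rr_cont_left w).tendsto _).comp hlim).eventually (h.op.mem_nhds hg)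
  have h2 : ∀ᶠ n : ℕ in atTop, 0 < n4 ((1 / (n : ℝ)) • qr (f n)) := by
    have hc : Continuous n4 := by unfold n4; fun_prop
    exact ((hc.tendsto _).comp hlim).eventually (lt_mem_nhds hN)
  obtain ⟨n, hn1, hn2, hn3⟩ := (h1.and (h2.and (eventually_gt_atTop 0))).exists
  have hn0 : (0 : ℝ) < n := by exact_mod_cast hn3
  refine ⟨f n, ?_, ?_, ?_⟩
  · rw [hf]
    refine ⟨?_, ?_, ?_, ?_⟩ <;> simp
  · rw [n4_smul] at hn2
    exact (mul_pos_iff_of_pos_left (by positivity)).1 hn2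
  · rw [rr_smul_left] at hn1
    have h3 := h.cone _ hn1 ((n : ℝ) ^ 2) (by positivity)
    rw [smul_smul] at h3
    have e : (n : ℝ) ^ 2 * (1 / (n : ℝ)) ^ 2 = 1 := by field_simp
    rwa [e, one_smul] at h3

/-- Finitely many quaternions suffice. -/
theorem dir_fin {𝒞 : Set (ℝ × ℝ × ℝ)} (h : OpenCone 𝒞) {m : ℕ} (hm : 0 < m)
    (q0 : ℤ × ℤ × ℤ × ℤ) : ∃ F : Finset (ℤ × ℤ × ℤ × ℤ), (∀ q ∈ F, Cls m q0 q ∧ 0 < n4 (qr q)) ∧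
      ∀ w : ℝ × ℝ × ℝ, 0 < n3 w → ∃ q ∈ F, rr (qr q) w ∈ 𝒞 := by
  have hK : IsCompact {w : ℝ × ℝ × ℝ | n3 w = 1} := by
    refine Metric.isCompact_of_isClosed_isBounded ?_ ?_
    · have hc : Continuous n3 := by unfold n3; fun_prop
      exact isClosed_eq hc continuous_const
    · rw [isBounded_iff_forall_norm_le]
      refine ⟨1, fun w hw => ?_⟩
      have hw1 : w.1 ^ 2 + w.2.1 ^ 2 + w.2.2 ^ 2 = 1 := hw
      rw [Prod.norm_def, Prod.norm_def]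
      refine max_le ?_ (max_le ?_ ?_)
      · rw [Real.norm_eq_abs, ← sq_le_one_iff_abs_le_one]
        nlinarith [sq_nonneg w.2.1, sq_nonneg w.2.2]
      · rw [Real.norm_eq_abs, ← sq_le_one_iff_abs_le_one]
        nlinarith [sq_nonneg w.1, sq_nonneg w.2.2]
      · rw [Real.norm_eq_abs, ← sq_le_one_iff_abs_le_one]
        nlinarith [sq_nonneg w.1, sq_nonneg w.2.1]
  obtain ⟨b, hb, hbf, hcov⟩ := hK.elim_finite_subcover_image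
    (b := {q : ℤ × ℤ × ℤ × ℤ | Cls m q0 q ∧ 0 < n4 (qr q)})
    (c := fun q => {w : ℝ × ℝ × ℝ | rr (qr q) w ∈ 𝒞})
    (fun q _ => h.op.preimage (rr_cont_right (qr q)))
    (fun w hw => by
      obtain ⟨q, hq1, hq2, hq3⟩ := dir_one h hm q0 hw
      exact Set.mem_biUnion (show q ∈ {q : ℤ × ℤ × ℤ × ℤ | Cls m q0 q ∧ 0 < n4 (qr q)} from
        ⟨hq1, hq2⟩) hq3)
  refine ⟨hbf.toFinset, fun q hq => hb (hbf.mem_toFinset.1 hq), fun w hw => ?_⟩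
  have hs : 0 < √(n3 w) := Real.sqrt_pos.2 hw
  have h1 : n3 ((1 / √(n3 w)) • w) = 1 := by
    rw [n3_smul, div_pow, one_pow, Real.sq_sqrt hw.le]
    field_simp
  obtain ⟨q, hq, hq2⟩ := Set.mem_iUnion₂.1 (hcov h1)
  refine ⟨q, hbf.mem_toFinset.2 hq, ?_⟩
  have h2 : rr (qr q) ((1 / √(n3 w)) • w) ∈ 𝒞 := hq2
  rw [rr_smul_right] at h2
  have h3 := h.cone _ h2 (√(n3 w)) hs
  rw [smul_smul] at h3
  have e : √(n3 w) * (1 / √(n3 w)) = 1 := by field_simp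
  rwa [e, one_smul] at h3

end Pool.Agent.Lib.MP_0d68c6_nt
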