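import Pool.Agent.Lib.MP_0d68c6_nt.Vals
import Pool.Agent.Lib.MP_0d68c6_nt.Defs

/-!
From one integral point on the plane to a positive proportion of a residue class.
-/

namespace Pool.Agent.Lib.MP_0d68c6_nt

open Finset

/-- Bounds for one coordinate. -/
theorem coord {v p e f H R P m i l G : ℤ} (hR : 1 ≤ R) (hm : 1 ≤ m) (hH : 0 ≤ H) (hp : 0 < p)
    (hpP : p ≤ P) (hHs : |v| + |e| + |f| ≤ H) (hi0 : 0 ≤ i) (hiR : i ≤ R) (hl0 : 0 ≤ l)
    (hlR : l ≤ R) (hG : G = m * (H * P + H) + H) :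
    0 ≤ v + m * (H * R * p + i * e + l * f) ∧ v + m * (H * R * p + i * e + l * f) ≤ G * R := by
  have hR0 : 0 ≤ R := by linarith
  have nv := abs_nonneg v
  have ne := abs_nonneg e
  have nf := abs_nonneg f
  have g1 : -(|v| * R) ≤ v := by
    have h1 := neg_abs_le v
    have h2 : |v| * 1 ≤ |v| * R := mul_le_mul_of_nonneg_left hR nv
    linarith
  have g1' : v ≤ H * R := by
    have h1 := le_abs_self v
    have h2 : H * 1 ≤ H * R := mul_le_mul_of_nonneg_left hR hH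
    linarith
  have g2 : |i * e| ≤ |e| * R := by
    rw [abs_mul, abs_of_nonneg hi0, mul_comm]
    exact mul_le_mul_of_nonneg_left hiR ne
  have g3 : |l * f| ≤ |f| * R := by
    rw [abs_mul, abs_of_nonneg hl0, mul_comm]
    exact mul_le_mul_of_nonneg_left hlR nf
  have g2' := abs_le.1 g2
  have g3' := abs_le.1 g3
  have hHR : 0 ≤ H * R := mul_nonneg hH hR0
  have g4 : H * R ≤ H * R * p := le_mul_of_one_le_right hHR (by omega)
  have g5 : |v| * R + |e| * R + |f| * R ≤ H * R := by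
    have := mul_le_mul_of_nonneg_right hHs hR0
    linarith [add_mul (|v| + |e|) |f| R, add_mul |v| |e| R]
  have g6 : H * R * p ≤ H * R * P := mul_le_mul_of_nonneg_left hpP hHR
  have g7 : 0 ≤ |v| * R := mul_nonneg nv hR0
  have k1 : |v| * R ≤ H * R * p + i * e + l * f := by linarith [g2'.1, g3'.1]
  constructor
  · have k2 : H * R * p + i * e + l * f ≤ m * (H * R * p + i * e + l * f) :=
      le_mul_of_one_le_left (by linarith) hm
    linarith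
  · have k2 : H * R * p + i * e + l * f ≤ H * R * P + H * R := by linarith [g2'.2, g3'.2]
    have k3 : m * (H * R * p + i * e + l * f) ≤ m * (H * R * P + H * R) :=
      mul_le_mul_of_nonneg_left k2 (by linarith)
    have k4 : G * R = m * (H * R * P + H * R) + H * R := by rw [hG]; ring
    linarith

/-- The value of the linear form. -/
theorem lin_val {a b c d p1 p2 p3 p4 v1 v2 v3 v4 m H R A C i j l t : ℤ} (hA : a ^ 2 + b ^ 2 = A)
    (hC : c ^ 2 + d ^ 2 = C) (hp : a * p1 + b * p2 + c * p3 + d * p4 = 0)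
    (hv : a * v1 + b * v2 + c * v3 + d * v4 = t) :
    a * (v1 + m * (H * R * p1 + i * b + l * (C * a))) +
      b * (v2 + m * (H * R * p2 + i * -a + l * (C * b))) +
      c * (v3 + m * (H * R * p3 + j * d + l * -(A * c))) +
      d * (v4 + m * (H * R * p4 + j * -c + l * -(A * d))) = t := by
  rw [← hv, ← hA, ← hC]
  linear_combination m * H * R * hp

/-- The sum of the squares. -/
theorem sq_val {a b c d p1 p2 p3 p4 v1 v2 v3 v4 m H R A C i j l : ℤ} (hA : a ^ 2 + b ^ 2 = A)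
    (hC : c ^ 2 + d ^ 2 = C) :
    (v1 + m * (H * R * p1)) ^ 2 + (v2 + m * (H * R * p2)) ^ 2 + (v3 + m * (H * R * p3)) ^ 2 +
      (v4 + m * (H * R * p4)) ^ 2 +
      (m ^ 2 * A * i ^ 2 + (2 * m * (b * v1 - a * v2) + 2 * m * (m * H * (b * p1 - a * p2)) * R) * i) +
      (m ^ 2 * C * j ^ 2 + (2 * m * (d * v3 - c * v4) + 2 * m * (m * H * (d * p3 - c * p4)) * R) * j) +
      (m ^ 2 * (A * C * (A + C)) * l ^ 2 +
        (2 * m * (C * a * v1 + C * b * v2 + -(A * c) * v3 + -(A * d) * v4) +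
          2 * m * (m * H * (C * a * p1 + C * b * p2 + -(A * c) * p3 + -(A * d) * p4)) * R) * l) =
      (v1 + m * (H * R * p1 + i * b + l * (C * a))) ^ 2 +
      (v2 + m * (H * R * p2 + i * -a + l * (C * b))) ^ 2 +
      (v3 + m * (H * R * p3 + j * d + l * -(A * c))) ^ 2 +
      (v4 + m * (H * R * p4 + j * -c + l * -(A * d))) ^ 2 := by
  subst hA
  subst hC
  ring

theorem sq_ne {a b c d : ℤ} {x y z w k : ℕ} (hQ : a * x + b * y + c * z + d * w = 2 ^ k) :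
    1 ≤ x ^ 2 + y ^ 2 + z ^ 2 + w ^ 2 := by
  by_contra h5
  have e1 : x = 0 := by
    have : x ^ 2 = 0 := by omega
    exact (pow_eq_zero_iff two_ne_zero).1 this
  have e2 : y = 0 := by
    have : y ^ 2 = 0 := by omega
    exact (pow_eq_zero_iff two_ne_zero).1 this
  have e3 : z = 0 := by
    have : z ^ 2 = 0 := by omega
    exact (pow_eq_zero_iff two_ne_zero).1 this
  have e4 : w = 0 := by
    have : w ^ 2 = 0 := by omega
    exact (pow_eq_zero_iff two_ne_zero).1 this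
  have h6 : (0 : ℤ) < 2 ^ k := by positivity
  rw [← hQ, e1, e2, e3, e4] at h6
  simp at h6

theorem mod_sq (v m u : ℤ) : (v + m * u) ^ 2 ≡ v ^ 2 [ZMOD m] := by
  refine Int.ModEq.pow 2 ?_
  exact Int.modEq_iff_dvd.2 ⟨-u, by ring⟩

theorem sq_pos2 {a b : ℤ} (h : a ≠ 0 ∨ b ≠ 0) : 0 < a ^ 2 + b ^ 2 := by
  rcases h with h | h
  · have h1 : 0 < a ^ 2 := by positivity
    have h2 : 0 ≤ b ^ 2 := sq_nonneg b
    linarith
  · have h1 : 0 < b ^ 2 := by positivity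
    have h2 : 0 ≤ a ^ 2 := sq_nonneg a
    linarith

open Classical in
theorem fam {a b c d : ℤ} (hab : a ≠ 0 ∨ b ≠ 0) (hcd : c ≠ 0 ∨ d ≠ 0) {p1 p2 p3 p4 : ℤ}
    (h1 : 0 < p1) (h2 : 0 < p2) (h3 : 0 < p3) (h4 : 0 < p4)
    (hp : a * p1 + b * p2 + c * p3 + d * p4 = 0) {v1 v2 v3 v4 : ℤ} {k : ℕ}
    (hv : a * v1 + b * v2 + c * v3 + d * v4 = 2 ^ k) {m : ℕ} (hm : 0 < m) :
    ∃ K D : ℕ, 0 < K ∧ 0 < D ∧ ∀ R : ℕ, 1 ≤ R → R ^ 2 ≤ ((Icc 1 (D * R ^ 2)).filter fun n : ℕ =>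
      (n : ℤ) ≡ v1 ^ 2 + v2 ^ 2 + v3 ^ 2 + v4 ^ 2 [ZMOD m] ∧ Rep a b c d n).card * K := by
  obtain ⟨A, hA⟩ := Int.eq_ofNat_of_zero_le (sq_pos2 hab).le
  obtain ⟨C, hC⟩ := Int.eq_ofNat_of_zero_le (sq_pos2 hcd).le
  have hA0 : 0 < A := by
    have h5 := sq_pos2 hab
    rw [hA] at h5
    exact_mod_cast h5
  have hC0 : 0 < C := by
    have h5 := sq_pos2 hcd
    rw [hC] at h5
    exact_mod_cast h5
  obtain ⟨H, hH⟩ : ∃ H : ℤ, H = |a| + |b| + |c| + |d| + |(C : ℤ) * a| + |(C : ℤ) * b| +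
    |-((A : ℤ) * c)| + |-((A : ℤ) * d)| + |v1| + |v2| + |v3| + |v4| := ⟨_, rfl⟩
  have na := abs_nonneg a
  have nb := abs_nonneg b
  have nc := abs_nonneg c
  have nd := abs_nonneg d
  have nf1 := abs_nonneg ((C : ℤ) * a)
  have nf2 := abs_nonneg ((C : ℤ) * b)
  have nf3 := abs_nonneg (-((A : ℤ) * c))
  have nf4 := abs_nonneg (-((A : ℤ) * d))
  have nv1 := abs_nonneg v1
  have nv2 := abs_nonneg v2
  have nv3 := abs_nonneg v3
  have nv4 := abs_nonneg v4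
  have hH0 : 0 ≤ H := by linarith
  have hH1 : |v1| + |b| + |(C : ℤ) * a| ≤ H := by linarith
  have hH2 : |v2| + |-a| + |(C : ℤ) * b| ≤ H := by rw [abs_neg]; linarith
  have hH3 : |v3| + |d| + |-((A : ℤ) * c)| ≤ H := by linarith
  have hH4 : |v4| + |-c| + |-((A : ℤ) * d)| ≤ H := by rw [abs_neg c]; linarith
  clear na nb nc nd nf1 nf2 nf3 nf4 nv1 nv2 nv3 nv4 hH
  have hm0 : (1 : ℤ) ≤ m := by exact_mod_cast hm
  obtain ⟨α, hα⟩ : ∃ x : ℤ, x = 2 * m * (b * v1 - a * v2) := ⟨_, rfl⟩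
  obtain ⟨α', hα'⟩ : ∃ x : ℤ, x = 2 * m * (m * H * (b * p1 - a * p2)) := ⟨_, rfl⟩
  obtain ⟨β, hβ⟩ : ∃ x : ℤ, x = 2 * m * (d * v3 - c * v4) := ⟨_, rfl⟩
  obtain ⟨β', hβ'⟩ : ∃ x : ℤ, x = 2 * m * (m * H * (d * p3 - c * p4)) := ⟨_, rfl⟩
  obtain ⟨γ, hγ⟩ : ∃ x : ℤ, x = 2 * m * (C * a * v1 + C * b * v2 + -(A * c) * v3 +
    -(A * d) * v4) := ⟨_, rfl⟩
  obtain ⟨γ', hγ'⟩ : ∃ x : ℤ, x = 2 * m * (m * H * (C * a * p1 + C * b * p2 + -(A * c) * p3 +
    -(A * d) * p4)) := ⟨_, rfl⟩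
  obtain ⟨L, hL⟩ : ∃ L : ℕ, L = (α.natAbs + α'.natAbs) + (β.natAbs + β'.natAbs) +
    (γ.natAbs + γ'.natAbs) := ⟨_, rfl⟩
  obtain ⟨K, hK⟩ : ∃ K : ℕ, K = 1 + 1536 * (2 * (m ^ 2 * A + m ^ 2 * C + m ^ 2 * (A * C * (A + C))) +
    L) ^ 4 := ⟨_, rfl⟩
  obtain ⟨G, hG⟩ : ∃ G : ℤ, G = m * (H * (p1 + p2 + p3 + p4) + H) + H := ⟨_, rfl⟩
  obtain ⟨D, hD⟩ := Int.eq_ofNat_of_zero_le (show 0 ≤ 4 * G ^ 2 + 1 by positivity)
  have hD0 : 0 < D := by
    have h5 : (0 : ℤ) < 4 * G ^ 2 + 1 := by positivity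
    rw [hD] at h5
    exact_mod_cast h5
  refine ⟨K, D, by rw [hK]; omega, hD0, fun R hR => ?_⟩
  have hR0 : (1 : ℤ) ≤ R := by exact_mod_cast hR
  have hnat : ∀ x y : ℤ, (x + y * R).natAbs ≤ (x.natAbs + y.natAbs) * R := by
    intro x y
    have h5 := Int.natAbs_add_le x (y * R)
    rw [Int.natAbs_mul, Int.natAbs_natCast] at h5
    have h6 : x.natAbs ≤ x.natAbs * R := Nat.le_mul_of_pos_right _ hR
    calc _ ≤ _ := h5
      _ ≤ x.natAbs * R + y.natAbs * R := by omega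
      _ = _ := by ring
  obtain ⟨F, hF⟩ : ∃ F : ℤ, F = (v1 + m * (H * R * p1)) ^ 2 + (v2 + m * (H * R * p2)) ^ 2 +
    (v3 + m * (H * R * p3)) ^ 2 + (v4 + m * (H * R * p4)) ^ 2 := ⟨_, rfl⟩
  have hvals := vals_card (A := m ^ 2 * A) (B := m ^ 2 * C) (C := m ^ 2 * (A * C * (A + C)))
    (L := L) (R := R) (by positivity) (by positivity) (by positivity) hR
    (A' := α + α' * R) (B' := β + β' * R) (C' := γ + γ' * R) F
    ((hnat _ _).trans (Nat.mul_le_mul_right _ (by rw [hL]; omega)))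
    ((hnat _ _).trans (Nat.mul_le_mul_right _ (by rw [hL]; omega)))
    ((hnat _ _).trans (Nat.mul_le_mul_right _ (by rw [hL]; omega)))
  rw [← hK] at hvals
  refine hvals.trans (Nat.mul_le_mul_right _ ?_)
  clear hvals hK hnat hL
  have hsub : (cube R).image (dg (m ^ 2 * A) (m ^ 2 * C) (m ^ 2 * (A * C * (A + C)))
      (α + α' * R) (β + β' * R) (γ + γ' * R) F) ⊆
      ((Icc 1 (D * R ^ 2)).filter fun n : ℕ =>
        (n : ℤ) ≡ v1 ^ 2 + v2 ^ 2 + v3 ^ 2 + v4 ^ 2 [ZMOD m] ∧ Rep a b c d n).image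
        fun n : ℕ => (n : ℤ) := by
    intro y hy
    obtain ⟨⟨i, j, l⟩, ht, rfl⟩ := mem_image.1 hy
    simp only [cube, mem_product, mem_range] at ht
    obtain ⟨hi, hj, hl⟩ := ht
    have hi0 : (0 : ℤ) ≤ i := Int.natCast_nonneg i
    have hj0 : (0 : ℤ) ≤ j := Int.natCast_nonneg j
    have hl0 : (0 : ℤ) ≤ l := Int.natCast_nonneg l
    have hiR : (i : ℤ) ≤ R := by exact_mod_cast hi.le
    have hjR : (j : ℤ) ≤ R := by exact_mod_cast hj.le
    have hlR : (l : ℤ) ≤ R := by exact_mod_cast hl.le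
    obtain ⟨x0, x1⟩ := coord (v := v1) (p := p1) (e := b) (f := (C : ℤ) * a) hR0 hm0 hH0 h1
      (by linarith) hH1 hi0 hiR hl0 hlR hG
    obtain ⟨y0, y1⟩ := coord (v := v2) (p := p2) (e := -a) (f := (C : ℤ) * b) hR0 hm0 hH0 h2
      (by linarith) hH2 hi0 hiR hl0 hlR hG
    obtain ⟨z0, z1⟩ := coord (v := v3) (p := p3) (e := d) (f := -((A : ℤ) * c)) hR0 hm0 hH0 h3
      (by linarith) hH3 hj0 hjR hl0 hlR hG
    obtain ⟨w0, w1⟩ := coord (v := v4) (p := p4) (e := -c) (f := -((A : ℤ) * d)) hR0 hm0 hH0 h4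
      (by linarith) hH4 hj0 hjR hl0 hlR hG
    have hQ := lin_val (m := m) (H := H) (R := R) (i := i) (j := j) (l := l) hA hC hp hv
    have hS := sq_val (v1 := v1) (v2 := v2) (v3 := v3) (v4 := v4) (p1 := p1) (p2 := p2) (p3 := p3)
      (p4 := p4) (m := m) (H := H) (R := R) (i := i) (j := j) (l := l) hA hC
    have hm1 := mod_sq v1 m (H * R * p1 + i * b + l * (C * a))
    have hm2 := mod_sq v2 m (H * R * p2 + i * -a + l * (C * b))
    have hm3 := mod_sq v3 m (H * R * p3 + j * d + l * -(A * c))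
    have hm4 := mod_sq v4 m (H * R * p4 + j * -c + l * -(A * d))
    rw [← hF, ← hα, ← hα', ← hβ, ← hβ', ← hγ, ← hγ'] at hS
    obtain ⟨x, hx⟩ := Int.eq_ofNat_of_zero_le x0
    obtain ⟨y, hy⟩ := Int.eq_ofNat_of_zero_le y0
    obtain ⟨z, hz⟩ := Int.eq_ofNat_of_zero_le z0
    obtain ⟨w, hw⟩ := Int.eq_ofNat_of_zero_le w0
    rw [hx] at x0 x1 hQ hS hm1
    rw [hy] at y0 y1 hQ hS hm2
    rw [hz] at z0 z1 hQ hS hm3
    rw [hw] at w0 w1 hQ hS hm4
    have hval : dg (m ^ 2 * A) (m ^ 2 * C) (m ^ 2 * (A * C * (A + C)))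
        (α + α' * R) (β + β' * R) (γ + γ' * R) F (i, j, l) =
        ((x ^ 2 + y ^ 2 + z ^ 2 + w ^ 2 : ℕ) : ℤ) := by
      push_cast
      rw [← hS]
      simp only [dg]
      push_cast
      rfl
    rw [hval]
    refine mem_image_of_mem (fun n : ℕ => (n : ℤ)) ?_
    rw [mem_filter, mem_Icc]
    refine ⟨⟨sq_ne hQ, ?_⟩, ?_, x, y, z, w, rfl, k, hQ⟩
    · have h5 : ((x ^ 2 + y ^ 2 + z ^ 2 + w ^ 2 : ℕ) : ℤ) ≤ ((D * R ^ 2 : ℕ) : ℤ) := by
        push_cast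
        have e1 : (x : ℤ) ^ 2 ≤ (G * R) ^ 2 := pow_le_pow_left₀ x0 x1 2
        have e2 : (y : ℤ) ^ 2 ≤ (G * R) ^ 2 := pow_le_pow_left₀ y0 y1 2
        have e3 : (z : ℤ) ^ 2 ≤ (G * R) ^ 2 := pow_le_pow_left₀ z0 z1 2
        have e4 : (w : ℤ) ^ 2 ≤ (G * R) ^ 2 := pow_le_pow_left₀ w0 w1 2
        have e5 : (D : ℤ) * R ^ 2 = 4 * (G * R) ^ 2 + R ^ 2 := by
          rw [← hD]
          ring
        have e6 : (0 : ℤ) ≤ (R : ℤ) ^ 2 := by positivity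
        linarith
      exact_mod_cast h5
    · push_cast
      exact ((hm1.add hm2).add hm3).add hm4
  exact (card_le_card hsub).trans card_image_le

end Pool.Agent.Lib.MP_0d68c6_nt
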