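import Mathlib

/-!
Local solvability: integral points on the plane with a prescribed residue of the norm.
-/

namespace Pool.Agent.Lib.MP_0d68c6_nt

/-- The scalar product. -/
def dt (u v : ℤ × ℤ × ℤ × ℤ) : ℤ :=
  u.1 * v.1 + u.2.1 * v.2.1 + u.2.2.1 * v.2.2.1 + u.2.2.2 * v.2.2.2

theorem dt_add (u v w : ℤ × ℤ × ℤ × ℤ) : dt u (v + w) = dt u v + dt u w := by
  simp only [dt, Prod.fst_add, Prod.snd_add]; ring

theorem dt_smul (u v : ℤ × ℤ × ℤ × ℤ) (x : ℤ) : dt u (x • v) = x * dt u v := by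
  simp only [dt, Prod.smul_fst, Prod.smul_snd, smul_eq_mul]; ring

theorem dt_comm (u v : ℤ × ℤ × ℤ × ℤ) : dt u v = dt v u := by
  simp only [dt]; ring

theorem dt_sq (v e : ℤ × ℤ × ℤ × ℤ) (x : ℤ) :
    dt (v + x • e) (v + x • e) = dt v v + 2 * x * dt v e + x ^ 2 * dt e e := by
  rw [dt_add, dt_comm (v + x • e) v, dt_add, dt_comm (v + x • e) (x • e), dt_add, dt_smul, dt_smul,
    dt_comm (x • e) v, dt_comm (x • e) e, dt_smul, dt_smul]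
  ring

/-- The three vectors orthogonal to `h`. -/
def e1 (h : ℤ × ℤ × ℤ × ℤ) : ℤ × ℤ × ℤ × ℤ := (-h.2.1, h.1, h.2.2.2, -h.2.2.1)
def e2 (h : ℤ × ℤ × ℤ × ℤ) : ℤ × ℤ × ℤ × ℤ := (-h.2.2.1, -h.2.2.2, h.1, h.2.1)
def e3 (h : ℤ × ℤ × ℤ × ℤ) : ℤ × ℤ × ℤ × ℤ := (-h.2.2.2, h.2.2.1, -h.2.1, h.1)

theorem he1 (h : ℤ × ℤ × ℤ × ℤ) : dt h (e1 h) = 0 := by simp only [dt, e1]; ring
theorem he2 (h : ℤ × ℤ × ℤ × ℤ) : dt h (e2 h) = 0 := by simp only [dt, e2]; ring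
theorem he3 (h : ℤ × ℤ × ℤ × ℤ) : dt h (e3 h) = 0 := by simp only [dt, e3]; ring

/-- Euler's identity. -/
theorem euler (h v : ℤ × ℤ × ℤ × ℤ) :
    dt h v ^ 2 + dt v (e1 h) ^ 2 + dt v (e2 h) ^ 2 + dt v (e3 h) ^ 2 = dt h h * dt v v := by
  simp only [dt, e1, e2, e3]; ring

theorem comb_h (h : ℤ × ℤ × ℤ × ℤ) (s t x y z : ℤ) :
    dt h (s • (t • h + x • e1 h + y • e2 h + z • e3 h)) = s * (t * dt h h) := by
  simp only [dt, e1, e2, e3, Prod.fst_add, Prod.snd_add, Prod.smul_fst, Prod.smul_snd, smul_eq_mul]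
  ring

theorem comb_n (h : ℤ × ℤ × ℤ × ℤ) (s t x y z : ℤ) :
    dt (s • (t • h + x • e1 h + y • e2 h + z • e3 h)) (s • (t • h + x • e1 h + y • e2 h + z • e3 h)) =
      s ^ 2 * dt h h * (t ^ 2 + x ^ 2 + y ^ 2 + z ^ 2) := by
  simp only [dt, e1, e2, e3, Prod.fst_add, Prod.snd_add, Prod.smul_fst, Prod.smul_snd, smul_eq_mul]
  ring

theorem comb_e (h : ℤ × ℤ × ℤ × ℤ) (s t x y z : ℤ) :
    dt (s • (t • h + x • e1 h + y • e2 h + z • e3 h)) (e3 h) = s * (z * dt h h) := by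
  simp only [dt, e1, e2, e3, Prod.fst_add, Prod.snd_add, Prod.smul_fst, Prod.smul_snd, smul_eq_mul]
  ring

/-- Hensel's lemma for a quadratic polynomial, `p` odd. -/
theorem hensel_odd {p : ℕ} (hp : p.Prime) (hp2 : p ≠ 2) {α β γ : ℤ} (hβ : ¬ (p : ℤ) ∣ β)
    (h0 : (p : ℤ) ∣ α) (a : ℕ) :
    ∃ μ : ℤ, (p : ℤ) ∣ μ ∧ (p : ℤ) ^ (a + 1) ∣ α + 2 * μ * β + μ ^ 2 * γ := by
  have hpi : Prime (p : ℤ) := Nat.prime_iff_prime_int.1 hp
  induction a with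
  | zero => exact ⟨0, dvd_zero _, by simpa using h0⟩
  | succ a ih =>
    obtain ⟨μ, hμ, s, hs⟩ := ih
    have h2 : ¬ (p : ℤ) ∣ 2 * (β + γ * μ) := by
      intro h
      rcases hpi.dvd_or_dvd h with h | h
      · have h3 : p ∣ 2 := by exact_mod_cast h
        exact hp2 ((Nat.prime_dvd_prime_iff_eq hp Nat.prime_two).1 h3)
      · exact hβ ((dvd_add_left (hμ.mul_left γ)).1 h)
    obtain ⟨x, y, hxy⟩ := (Prime.coprime_iff_not_dvd hpi).2 h2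
    -- `x p + y (2 (β + γ μ)) = 1`
    refine ⟨μ + p ^ (a + 1) * (-(s * y)), ?_, ?_⟩
    · exact dvd_add hμ (Dvd.dvd.mul_right (dvd_pow_self _ (Nat.succ_ne_zero a)) _)
    · refine ⟨s * x + p ^ a * (s * y) ^ 2 * γ, ?_⟩
      have e : α + 2 * (μ + p ^ (a + 1) * (-(s * y))) * β + (μ + p ^ (a + 1) * (-(s * y))) ^ 2 * γ =
          (α + 2 * μ * β + μ ^ 2 * γ) - p ^ (a + 1) * s * (y * (2 * (β + γ * μ))) +
            p ^ (a + 1) * p ^ (a + 1) * (s * y) ^ 2 * γ := by ring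
      rw [e, hs]
      have e2 : y * (2 * (β + γ * μ)) = 1 - x * p := by linarith
      rw [e2]
      ring

/-- Hensel's lemma for a quadratic polynomial, `p = 2`. -/
theorem hensel_two {α β γ : ℤ} (hβ : ¬ (2 : ℤ) ∣ β) (h0 : (8 : ℤ) ∣ α) (a : ℕ) :
    ∃ μ : ℤ, (4 : ℤ) ∣ μ ∧ (2 : ℤ) ^ (a + 3) ∣ α + 2 * μ * β + μ ^ 2 * γ := by
  induction a with
  | zero => exact ⟨0, dvd_zero _, by simpa using h0⟩
  | succ a ih =>
    obtain ⟨μ, ⟨ν, hν⟩, s, hs⟩ := ih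
    obtain ⟨b, hb⟩ : ∃ b, β = 2 * b + 1 := by
      refine ⟨β / 2, ?_⟩
      omega
    refine ⟨μ + 2 ^ (a + 2) * s, ?_, ?_⟩
    · refine dvd_add ⟨ν, hν⟩ (Dvd.dvd.mul_right ?_ _)
      exact ⟨2 ^ a, by ring⟩
    · refine ⟨s * (b + 1) + s * (γ * (2 * ν)) + 2 ^ a * s ^ 2 * γ, ?_⟩
      have e : α + 2 * (μ + 2 ^ (a + 2) * s) * β + (μ + 2 ^ (a + 2) * s) ^ 2 * γ =
          (α + 2 * μ * β + μ ^ 2 * γ) + 2 ^ (a + 2) * s * (2 * (β + γ * μ)) +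
            2 ^ (a + 2) * 2 ^ (a + 2) * s ^ 2 * γ := by ring
      rw [e, hs, hb, hν]
      ring

/-- A base point modulo an odd prime. -/
theorem base_odd {h w : ℤ × ℤ × ℤ × ℤ} (hw : dt h w = 1) {p : ℕ} (hp : p.Prime) (hp2 : p ≠ 2)
    {t : ℤ} (ht : ¬ (p : ℤ) ∣ t) (r : ℤ) :
    ∃ v e : ℤ × ℤ × ℤ × ℤ, dt h v = t ∧ dt h e = 0 ∧ (p : ℤ) ∣ dt v v - r ∧ ¬ (p : ℤ) ∣ dt v e := by
  have hpi : Prime (p : ℤ) := Nat.prime_iff_prime_int.1 hp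
  have : Fact p.Prime := ⟨hp⟩
  by_cases hN : (p : ℤ) ∣ dt h h
  · -- `p` divides the norm of `h`
    have h2 : ¬ (p : ℤ) ∣ 2 * t := by
      intro h3
      rcases hpi.dvd_or_dvd h3 with h3 | h3
      · have h4 : p ∣ 2 := by exact_mod_cast h3
        exact hp2 ((Nat.prime_dvd_prime_iff_eq hp Nat.prime_two).1 h4)
      · exact ht h3
    obtain ⟨x, y, hxy⟩ := (Prime.coprime_iff_not_dvd hpi).2 h2
    obtain ⟨N', hN'⟩ := hN
    obtain ⟨l, hl⟩ : ∃ l, l = y * (r - t ^ 2 * dt w w) := ⟨_, rfl⟩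
    obtain ⟨v, hv⟩ : ∃ v, v = t • w + l • (h + (-dt h h) • w) := ⟨_, rfl⟩
    have hv1 : dt h v = t := by
      rw [hv, dt_add, dt_smul, dt_smul, dt_add, dt_smul, hw]
      ring
    have hv2 : (p : ℤ) ∣ dt v v - r := by
      have e : dt v v = t ^ 2 * dt w w + 2 * t * l * (dt w h - dt h h * dt w w) +
          l ^ 2 * (dt h h - 2 * dt h h * dt w h + dt h h ^ 2 * dt w w) := by
        rw [hv]
        simp only [dt, Prod.fst_add, Prod.snd_add, Prod.smul_fst, Prod.smul_snd, smul_eq_mul]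
        ring
      rw [e, dt_comm w h, hw, hN', hl]
      refine ⟨-(x * (r - t ^ 2 * dt w w)) - 2 * t * (y * (r - t ^ 2 * dt w w)) * (N' * dt w w) +
        (y * (r - t ^ 2 * dt w w)) ^ 2 * (N' - 2 * N' * 1 + p * N' ^ 2 * dt w w), ?_⟩
      linear_combination (r - t ^ 2 * dt w w) * hxy
    have hE := euler h v
    rw [hv1, hN'] at hE
    by_contra hcon
    push Not at hcon
    have k1 := hcon v (e1 h) hv1 (he1 h) hv2
    have k2 := hcon v (e2 h) hv1 (he2 h) hv2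
    have k3 := hcon v (e3 h) hv1 (he3 h) hv2
    obtain ⟨y1, hy1⟩ := k1
    obtain ⟨y2, hy2⟩ := k2
    obtain ⟨y3, hy3⟩ := k3
    have h5 : (p : ℤ) ∣ t ^ 2 := by
      refine ⟨N' * dt v v - p * y1 ^ 2 - p * y2 ^ 2 - p * y3 ^ 2, ?_⟩
      rw [hy1, hy2, hy3] at hE
      linear_combination hE
    exact ht (hpi.dvd_of_dvd_pow h5)
  · obtain ⟨x, s, hxs⟩ := (Prime.coprime_iff_not_dvd hpi).2 hN
    -- `x p + s N = 1`
    obtain ⟨X, Y, hXY⟩ := ZMod.sq_add_sq p ((dt h h * r - t ^ 2 - 1 : ℤ) : ZMod p)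
    obtain ⟨X, rfl⟩ := ZMod.intCast_surjective X
    obtain ⟨Y, rfl⟩ := ZMod.intCast_surjective Y
    have h1 : (p : ℤ) ∣ (dt h h * r - t ^ 2 - 1) - (X ^ 2 + Y ^ 2) := by
      rw [← ZMod.intCast_zmod_eq_zero_iff_dvd]
      push_cast
      push_cast at hXY
      rw [hXY]
      ring
    obtain ⟨q, hq⟩ := h1
    obtain ⟨u, hu⟩ : ∃ u, u = s • (t • h + X • e1 h + Y • e2 h + (1 : ℤ) • e3 h) := ⟨_, rfl⟩
    have hu1 : dt h u = s * (t * dt h h) := by rw [hu, comb_h]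
    have hu2 : dt u u = s ^ 2 * dt h h * (t ^ 2 + X ^ 2 + Y ^ 2 + 1 ^ 2) := by rw [hu, comb_n]
    have hu3 : dt u (e3 h) = s * (1 * dt h h) := by rw [hu, comb_e]
    refine ⟨u + (t - dt h u) • w, e3 h, ?_, he3 h, ?_, ?_⟩
    · rw [dt_add, dt_smul, hw]
      ring
    · have e0 : t - dt h u = p * (t * x) := by
        rw [hu1]
        linear_combination (-t) * hxs
      rw [dt_sq, e0, hu2]
      have e4 : t ^ 2 + X ^ 2 + Y ^ 2 + 1 ^ 2 = dt h h * r - p * q := by linarith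
      rw [e4]
      have e5 : s ^ 2 * dt h h * (dt h h * r - p * q) = r - p * (x * r * (1 + s * dt h h)) -
          p * (s ^ 2 * dt h h * q) := by
        linear_combination r * (1 + s * dt h h) * hxs
      rw [e5]
      refine ⟨-(x * r * (1 + s * dt h h)) - s ^ 2 * dt h h * q + 2 * (t * x) * dt u w +
        p * (t * x) ^ 2 * dt w w, ?_⟩
      ring
    · intro h3
      have e0 : t - dt h u = p * (t * x) := by
        rw [hu1]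
        linear_combination (-t) * hxs
      rw [dt_comm, dt_add, dt_smul, dt_comm (e3 h) u, hu3, e0] at h3
      obtain ⟨y, hy⟩ := h3
      have h4 : (p : ℤ) ∣ 1 := by
        refine ⟨x + y - t * x * dt (e3 h) w, ?_⟩
        linear_combination hy - hxs
      exact hpi.not_isUnit (isUnit_of_dvd_one h4)

/-- The Chinese remainder theorem on the plane. -/
theorem crt {h : ℤ × ℤ × ℤ × ℤ} {m n : ℕ} (hmn : Nat.Coprime m n) {t r : ℤ}
    {u v : ℤ × ℤ × ℤ × ℤ} (hu : dt h u = t) (hv : dt h v = t) (hu2 : (m : ℤ) ∣ dt u u - r)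
    (hv2 : (n : ℤ) ∣ dt v v - r) :
    ∃ z : ℤ × ℤ × ℤ × ℤ, dt h z = t ∧ ((m * n : ℕ) : ℤ) ∣ dt z z - r := by
  obtain ⟨x, y, hxy⟩ := Nat.isCoprime_iff_coprime.2 hmn
  -- `x m + y n = 1`
  obtain ⟨z, hz⟩ : ∃ z, z = (1 - x * m) • u + (x * m) • v := ⟨_, rfl⟩
  have e : dt z z = (1 - x * m) ^ 2 * dt u u + 2 * (1 - x * m) * (x * m) * dt u v +
      (x * m) ^ 2 * dt v v := by
    rw [hz]
    simp only [dt, Prod.fst_add, Prod.snd_add, Prod.smul_fst, Prod.smul_snd, smul_eq_mul]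
    ring
  refine ⟨z, ?_, ?_⟩
  · rw [hz, dt_add, dt_smul, dt_smul, hu, hv]
    ring
  · rw [Nat.cast_mul]
    refine IsCoprime.mul_dvd (Nat.isCoprime_iff_coprime.2 hmn) ?_ ?_
    · obtain ⟨q, hq⟩ := hu2
      refine ⟨q + (-2 * x + x ^ 2 * m) * dt u u + 2 * (1 - x * m) * x * dt u v +
        x ^ 2 * m * dt v v, ?_⟩
      rw [e]
      linear_combination hq
    · obtain ⟨q, hq⟩ := hv2
      have h1 : x * m = 1 - y * n := by linarith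
      refine ⟨q + y ^ 2 * n * dt u u + 2 * y * (1 - y * n) * dt u v +
        (-2 * y + y ^ 2 * n) * dt v v, ?_⟩
      rw [e, h1]
      linear_combination hq

/-- All odd moduli. -/
theorem loc_odd {h w : ℤ × ℤ × ℤ × ℤ} (hw : dt h w = 1) (k : ℕ) (r : ℤ) (m : ℕ) (hm : Odd m) :
    ∃ v : ℤ × ℤ × ℤ × ℤ, dt h v = 2 ^ k ∧ (m : ℤ) ∣ dt v v - r := by
  induction m using Nat.recOnPosPrimePosCoprime with
  | prime_pow p n hp hn =>
    have hp2 : p ≠ 2 := by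
      rintro rfl
      rw [Nat.odd_pow_iff hn.ne'] at hm
      exact absurd hm (by decide)
    have ht : ¬ (p : ℤ) ∣ 2 ^ k := by
      intro h1
      have h2 : p ∣ 2 ^ k := by exact_mod_cast h1
      exact hp2 ((Nat.prime_dvd_prime_iff_eq hp Nat.prime_two).1 (hp.dvd_of_dvd_pow h2))
    obtain ⟨v, e, h1, h2, h3, h4⟩ := base_odd hw hp hp2 ht r
    obtain ⟨μ, -, hμ⟩ := hensel_odd hp hp2 (α := dt v v - r) (γ := dt e e) h4 h3 n
    refine ⟨v + μ • e, by rw [dt_add, dt_smul, h1, h2]; ring, ?_⟩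
    rw [dt_sq]
    have h5 : (p : ℤ) ^ n ∣ (p : ℤ) ^ (n + 1) := pow_dvd_pow _ (Nat.le_succ n)
    push_cast
    refine (h5.trans hμ).trans (dvd_of_eq ?_)
    ring
  | zero => exact absurd hm (by decide)
  | one => exact ⟨(2 ^ k : ℤ) • w, by rw [dt_smul, hw, mul_one], by simp⟩
  | coprime a b _ _ hab ha hb =>
    obtain ⟨h1, h2⟩ := Nat.odd_mul.1 hm
    obtain ⟨u, hu, hu2⟩ := ha h1
    obtain ⟨v, hv, hv2⟩ := hb h2
    exact crt hab hu hv hu2 hv2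

/-- The base points modulo `8`. -/
def Tab (h : ℤ × ℤ × ℤ × ℤ) : Prop :=
  ∀ n : ℕ, n < 8 → n ≠ 0 → n ≠ 4 → ∃ (v e : ℤ × ℤ × ℤ × ℤ) (k : ℕ), dt h v = 2 ^ k ∧
    (8 : ℤ) ∣ dt v v - n ∧ dt h e = 0 ∧ ¬ (2 : ℤ) ∣ dt v e

/-- All powers of two. -/
theorem loc_two {h : ℤ × ℤ × ℤ × ℤ} (hT : Tab h) (s : ℕ) (r : ℕ) (hr : 0 < r) :
    ∃ (v : ℤ × ℤ × ℤ × ℤ) (k : ℕ), dt h v = 2 ^ k ∧ ((2 ^ s : ℕ) : ℤ) ∣ dt v v - r := by
  induction r using Nat.strong_induction_on with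
  | _ r ih =>
  by_cases h4 : 4 ∣ r
  · obtain ⟨r', rfl⟩ := h4
    obtain ⟨v, k, h1, h2⟩ := ih r' (by omega) (by omega)
    refine ⟨(2 : ℤ) • v, k + 1, by rw [dt_smul, h1]; ring, ?_⟩
    obtain ⟨q, hq⟩ := h2
    refine ⟨4 * q, ?_⟩
    rw [dt_smul, dt_comm, dt_smul]
    push_cast at hq ⊢
    linear_combination 4 * hq
  · obtain ⟨v, e, k, h1, h2, h3, h5⟩ := hT (r % 8) (by omega) (by omega) (by omega)
    have h6 : (8 : ℤ) ∣ dt v v - r := by omega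
    obtain ⟨μ, -, hμ⟩ := hensel_two (α := dt v v - r) (γ := dt e e) h5 h6 s
    refine ⟨v + μ • e, k, by rw [dt_add, dt_smul, h1, h3]; ring, ?_⟩
    rw [dt_sq]
    have h7 : (2 : ℤ) ^ s ∣ (2 : ℤ) ^ (s + 3) := pow_dvd_pow _ (by omega)
    push_cast
    refine (h7.trans hμ).trans (dvd_of_eq ?_)
    ring

/-- All moduli. -/
theorem loc {h w : ℤ × ℤ × ℤ × ℤ} (hw : dt h w = 1) (hT : Tab h) {m : ℕ} (hm : 0 < m) (r : ℕ) :
    ∃ (v : ℤ × ℤ × ℤ × ℤ) (k : ℕ), dt h v = 2 ^ k ∧ (m : ℤ) ∣ dt v v - r := by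
  obtain ⟨s, n, hn, rfl⟩ := Nat.exists_eq_two_pow_mul_odd hm.ne'
  obtain ⟨u, k, h1, h2⟩ := loc_two hT s (r + 2 ^ s * n) (by omega)
  obtain ⟨v, h3, h4⟩ := loc_odd hw k ((r + 2 ^ s * n : ℕ) : ℤ) n hn
  have hc : Nat.Coprime (2 ^ s) n := (Nat.coprime_two_left.2 hn).pow_left s
  obtain ⟨z, h5, h6⟩ := crt hc h1 h3 h2 h4
  refine ⟨z, k, h5, ?_⟩
  obtain ⟨q, hq⟩ := h6
  refine ⟨q + 1, ?_⟩
  push_cast at hq ⊢
  linear_combination hq

end Pool.Agent.Lib.MP_0d68c6_nt
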