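import Pool.Agent.Lib.MP_0d68c6_nt.Sel
import Pool.Agent.Lib.MP_0d68c6_nt.Dir
import Pool.Agent.Lib.MP_be2ccc_co.ThreeB

/-!
Arithmetic progressions of sums of three squares with the vector in a given residue class and in a
given open cone.
-/

namespace Pool.Agent.Lib.MP_0d68c6_nt

open Finset

/-- A multiple `n S`, `n = 1` modulo `8`, of a sum of three squares is a sum of three squares. -/
theorem three_mul {n : ℕ} (hn : n % 8 = 1) (S : ℕ) : ∀ u v w : ℤ, u ^ 2 + v ^ 2 + w ^ 2 = S → 0 < S →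
    ∃ x y z : ℤ, x ^ 2 + y ^ 2 + z ^ 2 = (S * n : ℕ) := by
  induction S using Nat.strong_induction_on with
  | _ S ih =>
  intro u v w hS hS0
  have h8 : ∀ x : ℤ, x ^ 2 % 8 = 0 ∨ x ^ 2 % 8 = 1 ∨ x ^ 2 % 8 = 4 := by
    intro x
    have h : x % 8 = 0 ∨ x % 8 = 1 ∨ x % 8 = 2 ∨ x % 8 = 3 ∨ x % 8 = 4 ∨ x % 8 = 5 ∨ x % 8 = 6 ∨
        x % 8 = 7 := by omega
    rcases h with h | h | h | h | h | h | h | h <;> simp [pow_two, Int.mul_emod, h]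
  have h2 : ∀ x : ℤ, x % 2 = 1 → x ^ 2 % 4 = 1 := by
    intro x hx
    have h : x % 4 = 1 ∨ x % 4 = 3 := by omega
    rcases h with h | h <;> simp [pow_two, Int.mul_emod, h]
  have a1 := h8 u
  have a2 := h8 v
  have a3 := h8 w
  by_cases h4 : S % 4 = 0
  · have b1 : u % 2 = 0 := by
      by_contra hu
      have := h2 u (by omega)
      omega
    have b2 : v % 2 = 0 := by
      by_contra hu
      have := h2 v (by omega)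
      omega
    have b3 : w % 2 = 0 := by
      by_contra hu
      have := h2 w (by omega)
      omega
    obtain ⟨u', hu'⟩ : ∃ u', u = 2 * u' := ⟨u / 2, by omega⟩
    obtain ⟨v', hv'⟩ : ∃ v', v = 2 * v' := ⟨v / 2, by omega⟩
    obtain ⟨w', hw'⟩ : ∃ w', w = 2 * w' := ⟨w / 2, by omega⟩
    obtain ⟨S', hS'⟩ : ∃ S', S = 4 * S' := ⟨S / 4, by omega⟩
    obtain ⟨x, y, z, hx⟩ := ih S' (by omega) u' v' w' (by
      rw [hu', hv', hw', hS'] at hS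
      push_cast at hS
      linarith) (by omega)
    refine ⟨2 * x, 2 * y, 2 * z, ?_⟩
    rw [hS']
    push_cast at hx ⊢
    linear_combination 4 * hx
  · have h5 : (S * n) % 8 = S % 8 := by
      rw [Nat.mul_mod, hn, Nat.mul_one, Nat.mod_mod]
    obtain ⟨x, y, z, hx⟩ := Pool.Agent.Lib.MP_be2ccc_co.three_squares (S * n) (by omega)
    exact ⟨x, y, z, hx.symm⟩

/-- The norm. -/
def Nn (κ : ℤ × ℤ × ℤ × ℤ) : ℕ := (κ.1 ^ 2 + κ.2.1 ^ 2 + κ.2.2.1 ^ 2 + κ.2.2.2 ^ 2).toNat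

theorem Nn_eq (κ : ℤ × ℤ × ℤ × ℤ) :
    κ.1 ^ 2 + κ.2.1 ^ 2 + κ.2.2.1 ^ 2 + κ.2.2.2 ^ 2 = (Nn κ : ℤ) := by
  unfold Nn
  rw [Int.toNat_of_nonneg (by positivity)]

theorem prog_class {u v w : ℤ} {S : ℕ} (hS0 : 0 < S) (hS : u ^ 2 + v ^ 2 + w ^ 2 = S) {M : ℕ}
    (hM : 0 < M) {𝒞 : Set (ℝ × ℝ × ℝ)} (h : OpenCone 𝒞) (p q r : ℤ) :
    ∃ F : Finset (ℤ × ℤ × ℤ × ℤ), (∀ κ ∈ F, 0 < Nn κ ∧
      Nat.Coprime (Nn κ / Nat.gcd (Nn κ) (8 * S)) M ∧ ∀ x y z : ℤ,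
        ((8 * S * M : ℕ) : ℤ) ∣ x - p → ((8 * S * M : ℕ) : ℤ) ∣ y - q →
        ((8 * S * M : ℕ) : ℤ) ∣ z - r →
        ((8 * S * M : ℕ) : ℤ) ∣ r1 κ.1 κ.2.1 κ.2.2.1 κ.2.2.2 x y z - (Nn κ : ℤ) * u ∧
        ((8 * S * M : ℕ) : ℤ) ∣ r2 κ.1 κ.2.1 κ.2.2.1 κ.2.2.2 x y z - (Nn κ : ℤ) * v ∧
        ((8 * S * M : ℕ) : ℤ) ∣ r3 κ.1 κ.2.1 κ.2.2.1 κ.2.2.2 x y z - (Nn κ : ℤ) * w) ∧
      (((8 * S * M : ℕ) : ℤ) ∣ (u ^ 2 + v ^ 2 + w ^ 2) - (p ^ 2 + q ^ 2 + r ^ 2) →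
        ∀ ω : ℝ × ℝ × ℝ, 0 < n3 ω → ∃ κ ∈ F, rr (qr κ) ω ∈ 𝒞) := by
  by_cases hadm : ((8 * S * M : ℕ) : ℤ) ∣ (u ^ 2 + v ^ 2 + w ^ 2) - (p ^ 2 + q ^ 2 + r ^ 2)
  · obtain ⟨e0, e1, e2, e3, he⟩ := select hS0 hS hM hadm
    obtain ⟨F, hF1, hF2⟩ := dir_fin h (m := 8 * S * M) (by positivity)
      (t0 u v w e0 e1 e2 e3 p q r, t1 u v w e0 e1 e2 e3 p q r, t2 u v w e0 e1 e2 e3 p q r,
        t3 u v w e0 e1 e2 e3 p q r)
    refine ⟨F, fun κ hκ => ?_, fun _ => hF2⟩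
    obtain ⟨⟨c0, c1, c2, c3⟩, hN⟩ := hF1 κ hκ
    have hNn : 0 < Nn κ := by
      have h1 : ((Nn κ : ℤ) : ℝ) = n4 (qr κ) := by
        rw [← Nn_eq]
        simp only [n4, qr]
        push_cast
        ring
      rw [← h1] at hN
      exact_mod_cast hN
    refine ⟨hNn, he _ _ _ _ c0 c1 c2 c3 _ (Nn_eq κ) hNn, fun x y z hx hy hz => ?_⟩
    rw [← Nn_eq κ]
    exact int_conj hx hy hz hadm c0 c1 c2 c3
  · exact ⟨∅, fun κ hκ => absurd hκ (notMem_empty κ), fun h1 => absurd h1 hadm⟩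

theorem prog {u v w : ℤ} (h0 : 0 < u ^ 2 + v ^ 2 + w ^ 2) {M : ℕ} (hM : 0 < M)
    {𝒞 : Set (ℝ × ℝ × ℝ)} (h : OpenCone 𝒞) : ∃ A B : ℕ, 0 < A ∧ 0 < B ∧ ∀ j : ℕ, ∃ x y z : ℤ,
      (M : ℤ) ∣ x - u ∧ (M : ℤ) ∣ y - v ∧ (M : ℤ) ∣ z - w ∧
      ((x : ℝ), (y : ℝ), (z : ℝ)) ∈ 𝒞 ∧ x ^ 2 + y ^ 2 + z ^ 2 = (A : ℤ) + B * j := by
  classical
  obtain ⟨S, hS⟩ := Int.eq_ofNat_of_zero_le h0.le
  have hS0 : 0 < S := by
    rw [hS] at h0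
    exact_mod_cast h0
  obtain ⟨c, hc⟩ : ∃ c, c = 8 * S * M := ⟨_, rfl⟩
  have hc0 : 0 < c := by rw [hc]; positivity
  have hcl := fun ρ : ℕ × ℕ × ℕ => prog_class hS0 hS hM h (ρ.1 : ℤ) (ρ.2.1 : ℤ) (ρ.2.2 : ℤ)
  choose F hF1 hF2 using hcl
  obtain ⟨T, hT⟩ : ∃ T : Finset (ℕ × ℕ × ℕ), T = range c ×ˢ (range c ×ˢ range c) := ⟨_, rfl⟩
  obtain ⟨P, hP⟩ : ∃ P : ℕ, P = ∏ ρ ∈ T, ∏ κ ∈ F ρ, Nn κ / Nat.gcd (Nn κ) (8 * S) := ⟨_, rfl⟩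
  have hPc : Nat.Coprime P M := by
    rw [hP]
    exact Nat.Coprime.prod_left fun ρ _ => Nat.Coprime.prod_left fun κ hκ => (hF1 ρ κ hκ).2.1
  have hPpos : 0 < P := by
    rw [hP]
    refine prod_pos fun ρ _ => prod_pos fun κ hκ => ?_
    exact Nat.div_pos (Nat.le_of_dvd (hF1 ρ κ hκ).1 (Nat.gcd_dvd_left _ _))
      (Nat.gcd_pos_of_pos_left _ (hF1 ρ κ hκ).1)
  obtain ⟨M0, hM0⟩ : ∃ M0, M0 = P ^ Nat.totient M := ⟨_, rfl⟩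
  have hM00 : 0 < M0 := by rw [hM0]; exact pow_pos hPpos _
  have hM01 : (M : ℤ) ∣ (M0 : ℤ) - 1 := by
    have h1 := Nat.ModEq.pow_totient hPc
    rw [← hM0] at h1
    have h2 := (Nat.modEq_iff_dvd.1 h1.symm)
    simpa using h2
  refine ⟨M0 ^ 2 * S, M0 ^ 2 * S * c, by positivity, by positivity, fun j => ?_⟩
  have hn8 : (1 + c * j) % 8 = 1 := by
    rw [hc]
    have : 8 * S * M * j = 8 * (S * M * j) := by ring
    rw [this]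
    omega
  obtain ⟨x0, y0, z0, hW⟩ := three_mul hn8 S u v w hS hS0
  -- the residue class
  have hres : ∀ x : ℤ, ∃ p : ℕ, p < c ∧ (c : ℤ) ∣ x - p := by
    intro x
    have h1 : 0 ≤ x % c := Int.emod_nonneg _ (by exact_mod_cast hc0.ne')
    have h2 : x % c < c := Int.emod_lt_of_pos _ (by exact_mod_cast hc0)
    refine ⟨(x % c).toNat, by omega, ?_⟩
    rw [Int.toNat_of_nonneg h1]
    exact Int.dvd_self_sub_emod
  obtain ⟨p, hp, hxp⟩ := hres x0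
  obtain ⟨q, hq, hyq⟩ := hres y0
  obtain ⟨r, hr, hzr⟩ := hres z0
  have hρT : (p, q, r) ∈ T := by
    rw [hT, mem_product, mem_product, mem_range, mem_range, mem_range]
    exact ⟨hp, hq, hr⟩
  have hadm : ((8 * S * M : ℕ) : ℤ) ∣ (u ^ 2 + v ^ 2 + w ^ 2) - ((p : ℤ) ^ 2 + (q : ℤ) ^ 2 + (r : ℤ) ^ 2) := by
    rw [← hc]
    obtain ⟨α, hα⟩ := hxp
    obtain ⟨β, hβ⟩ := hyq
    obtain ⟨γ, hγ⟩ := hzr
    refine ⟨-(S * j) + α * (x0 + p) + β * (y0 + q) + γ * (z0 + r), ?_⟩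
    push_cast at hW
    rw [hS]
    linear_combination (-1 : ℤ) * hW + (x0 + p) * hα + (y0 + q) * hβ + (z0 + r) * hγ
  have hn3 : 0 < n3 ((x0 : ℝ), (y0 : ℝ), (z0 : ℝ)) := by
    have h1 : n3 ((x0 : ℝ), (y0 : ℝ), (z0 : ℝ)) = ((S * (1 + c * j) : ℕ) : ℝ) := by
      simp only [n3]
      exact_mod_cast hW
    rw [h1]
    have : 0 < S * (1 + c * j) := by positivity
    exact_mod_cast this
  obtain ⟨κ, hκ, hκ𝒞⟩ := hF2 (p, q, r) hadm _ hn3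
  obtain ⟨hN0, -, hconj⟩ := hF1 (p, q, r) κ hκ
  rw [← hc] at hconj
  obtain ⟨⟨E1, hE1⟩, ⟨E2, hE2⟩, ⟨E3, hE3⟩⟩ := hconj x0 y0 z0 hxp hyq hzr
  obtain ⟨N, hN⟩ : ∃ N, N = Nn κ := ⟨_, rfl⟩
  obtain ⟨g, hg⟩ : ∃ g, g = Nat.gcd N (8 * S) := ⟨_, rfl⟩
  obtain ⟨ν, hν⟩ : ∃ ν, ν = N / g := ⟨_, rfl⟩
  have hgN : g * ν = N := by
    rw [hν, hg]
    exact Nat.mul_div_cancel' (Nat.gcd_dvd_left _ _)
  obtain ⟨k, hk⟩ : g ∣ 8 * S := by rw [hg]; exact Nat.gcd_dvd_right _ _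
  have hνM : ν ∣ M0 := by
    have h1 : ν ∣ P := by
      rw [hP, hν, hg, hN]
      exact (dvd_prod_of_mem (fun κ => Nn κ / Nat.gcd (Nn κ) (8 * S)) hκ).trans
        (dvd_prod_of_mem (fun ρ => ∏ κ ∈ F ρ, Nn κ / Nat.gcd (Nn κ) (8 * S)) hρT)
    rw [hM0]
    exact h1.trans (dvd_pow_self _ (Nat.totient_pos.2 hM).ne')
  obtain ⟨m', hm'⟩ := hνM
  rw [← hN] at hE1 hE2 hE3 hN0
  have hck : c = g * (k * M) := by
    rw [hc, hk]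
    ring
  have hNz : (N : ℤ) = g * ν := by rw [← hgN]; push_cast; rfl
  have hMz : (M0 : ℤ) = ν * m' := by rw [hm']; push_cast; rfl
  have hcz : (c : ℤ) = g * (k * M) := by rw [hck]; push_cast; rfl
  obtain ⟨x, hx⟩ : ∃ x : ℤ, x = M0 * u + m' * (k * M) * E1 := ⟨_, rfl⟩
  obtain ⟨y, hy⟩ : ∃ y : ℤ, y = M0 * v + m' * (k * M) * E2 := ⟨_, rfl⟩
  obtain ⟨z, hz⟩ : ∃ z : ℤ, z = M0 * w + m' * (k * M) * E3 := ⟨_, rfl⟩
  have fx : (N : ℤ) * x = M0 * r1 κ.1 κ.2.1 κ.2.2.1 κ.2.2.2 x0 y0 z0 := by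
    rw [hx]
    have h1 : r1 κ.1 κ.2.1 κ.2.2.1 κ.2.2.2 x0 y0 z0 = N * u + c * E1 := by linarith
    rw [h1, hcz, hNz, hMz]
    ring
  have fy : (N : ℤ) * y = M0 * r2 κ.1 κ.2.1 κ.2.2.1 κ.2.2.2 x0 y0 z0 := by
    rw [hy]
    have h1 : r2 κ.1 κ.2.1 κ.2.2.1 κ.2.2.2 x0 y0 z0 = N * v + c * E2 := by linarith
    rw [h1, hcz, hNz, hMz]
    ring
  have fz : (N : ℤ) * z = M0 * r3 κ.1 κ.2.1 κ.2.2.1 κ.2.2.2 x0 y0 z0 := by
    rw [hz]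
    have h1 : r3 κ.1 κ.2.1 κ.2.2.1 κ.2.2.2 x0 y0 z0 = N * w + c * E3 := by linarith
    rw [h1, hcz, hNz, hMz]
    ring
  obtain ⟨a, ha⟩ := hM01
  refine ⟨x, y, z, ⟨a * u + m' * k * E1, ?_⟩, ⟨a * v + m' * k * E2, ?_⟩, ⟨a * w + m' * k * E3, ?_⟩,
    ?_, ?_⟩
  · rw [hx]
    linear_combination u * ha
  · rw [hy]
    linear_combination v * ha
  · rw [hz]
    linear_combination w * ha
  · have hNr : (0 : ℝ) < N := by exact_mod_cast hN0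
    have hMr : (0 : ℝ) < M0 := by exact_mod_cast hM00
    have h1 := h.cone _ hκ𝒞 ((M0 : ℝ) / N) (by positivity)
    have e : ((M0 : ℝ) / N) • rr (qr κ) ((x0 : ℝ), (y0 : ℝ), (z0 : ℝ)) =
        ((x : ℝ), (y : ℝ), (z : ℝ)) := by
      have gx : (N : ℝ) * x = M0 * r1 (κ.1 : ℝ) κ.2.1 κ.2.2.1 κ.2.2.2 x0 y0 z0 := by
        have := congrArg (fun s : ℤ => (s : ℝ)) fx
        simp only [r1] at this ⊢
        push_cast at this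
        exact this
      have gy : (N : ℝ) * y = M0 * r2 (κ.1 : ℝ) κ.2.1 κ.2.2.1 κ.2.2.2 x0 y0 z0 := by
        have := congrArg (fun s : ℤ => (s : ℝ)) fy
        simp only [r2] at this ⊢
        push_cast at this
        exact this
      have gz : (N : ℝ) * z = M0 * r3 (κ.1 : ℝ) κ.2.1 κ.2.2.1 κ.2.2.2 x0 y0 z0 := by
        have := congrArg (fun s : ℤ => (s : ℝ)) fz
        simp only [r3] at this ⊢
        push_cast at this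
        exact this
      simp only [rr, qr, Prod.smul_mk, smul_eq_mul]
      refine Prod.ext ?_ (Prod.ext ?_ ?_)
      · simp only
        rw [div_mul_eq_mul_div, div_eq_iff hNr.ne', ← gx]
        ring
      · simp only
        rw [div_mul_eq_mul_div, div_eq_iff hNr.ne', ← gy]
        ring
      · simp only
        rw [div_mul_eq_mul_div, div_eq_iff hNr.ne', ← gz]
        ring
    rw [e] at h1
    exact h1
  · have hNz0 : (N : ℤ) ^ 2 ≠ 0 := by positivity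
    refine mul_left_cancel₀ hNz0 ?_
    have h1 := r_norm κ.1 κ.2.1 κ.2.2.1 κ.2.2.2 x0 y0 z0
    rw [Nn_eq, ← hN, hW] at h1
    push_cast at h1 ⊢
    have h2 : (N : ℤ) ^ 2 * (x ^ 2 + y ^ 2 + z ^ 2) = (N * x) ^ 2 + (N * y) ^ 2 + (N * z) ^ 2 := by
      ring
    rw [h2, fx, fy, fz]
    linear_combination (M0 : ℤ) ^ 2 * h1

end Pool.Agent.Lib.MP_0d68c6_nt
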