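import Mathlib

/-!
Conjugation of a pure quaternion by a quaternion, in coordinates.
-/

namespace Pool.Agent.Lib.MP_0d68c6_nt

section algebra

variable {R : Type} [CommRing R]

/-- The coordinates of `q w q'` for `q = (a, b, c, d)` and the pure quaternion `w = (x, y, z)`. -/
def r1 (a b c d x y z : R) : R :=
  (a ^ 2 + b ^ 2 - c ^ 2 - d ^ 2) * x + 2 * (b * c - a * d) * y + 2 * (b * d + a * c) * z
def r2 (a b c d x y z : R) : R :=
  2 * (b * c + a * d) * x + (a ^ 2 - b ^ 2 + c ^ 2 - d ^ 2) * y + 2 * (c * d - a * b) * z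
def r3 (a b c d x y z : R) : R :=
  2 * (b * d - a * c) * x + 2 * (c * d + a * b) * y + (a ^ 2 - b ^ 2 - c ^ 2 + d ^ 2) * z

theorem r_norm (a b c d x y z : R) :
    r1 a b c d x y z ^ 2 + r2 a b c d x y z ^ 2 + r3 a b c d x y z ^ 2 =
      (a ^ 2 + b ^ 2 + c ^ 2 + d ^ 2) ^ 2 * (x ^ 2 + y ^ 2 + z ^ 2) := by
  simp only [r1, r2, r3]; ring

/-- The coordinates of `q w - u q`. -/
def d0 (a b c d x y z u v w : R) : R := (-(b * x) - c * y - d * z) - (-(u * b) - v * c - w * d)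
def d1 (a b c d x y z u v w : R) : R := (a * x + c * z - d * y) - (u * a + v * d - w * c)
def d2 (a b c d x y z u v w : R) : R := (a * y - b * z + d * x) - (v * a - u * d + w * b)
def d3 (a b c d x y z u v w : R) : R := (a * z + b * y - c * x) - (w * a + u * c - v * b)

theorem r1_eq (a b c d x y z u v w : R) : r1 a b c d x y z = (a ^ 2 + b ^ 2 + c ^ 2 + d ^ 2) * u +
    (-(d0 a b c d x y z u v w * b) + d1 a b c d x y z u v w * a - d2 a b c d x y z u v w * d +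
      d3 a b c d x y z u v w * c) := by
  simp only [r1, d0, d1, d2, d3]; ring

theorem r2_eq (a b c d x y z u v w : R) : r2 a b c d x y z = (a ^ 2 + b ^ 2 + c ^ 2 + d ^ 2) * v +
    (-(d0 a b c d x y z u v w * c) + d1 a b c d x y z u v w * d + d2 a b c d x y z u v w * a -
      d3 a b c d x y z u v w * b) := by
  simp only [r2, d0, d1, d2, d3]; ring

theorem r3_eq (a b c d x y z u v w : R) : r3 a b c d x y z = (a ^ 2 + b ^ 2 + c ^ 2 + d ^ 2) * w +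
    (-(d0 a b c d x y z u v w * d) - d1 a b c d x y z u v w * c + d2 a b c d x y z u v w * b +
      d3 a b c d x y z u v w * a) := by
  simp only [r3, d0, d1, d2, d3]; ring

/-- The coordinates of `u e + e w` for `e = (e0, e1, e2, e3)`. -/
def t0 (u v w e0 e1 e2 e3 x y z : R) : R :=
  (-(u * e1) - v * e2 - w * e3) + (-(e1 * x) - e2 * y - e3 * z)
def t1 (u v w e0 e1 e2 e3 x y z : R) : R :=
  (u * e0 + v * e3 - w * e2) + (e0 * x + e2 * z - e3 * y)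
def t2 (u v w e0 e1 e2 e3 x y z : R) : R :=
  (v * e0 - u * e3 + w * e1) + (e0 * y - e1 * z + e3 * x)
def t3 (u v w e0 e1 e2 e3 x y z : R) : R :=
  (w * e0 + u * e2 - v * e1) + (e0 * z + e1 * y - e2 * x)

theorem d_t (u v w e0 e1 e2 e3 x y z : R)
    (h : u ^ 2 + v ^ 2 + w ^ 2 = x ^ 2 + y ^ 2 + z ^ 2) :
    d0 (t0 u v w e0 e1 e2 e3 x y z) (t1 u v w e0 e1 e2 e3 x y z) (t2 u v w e0 e1 e2 e3 x y z)
      (t3 u v w e0 e1 e2 e3 x y z) x y z u v w = 0 ∧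
    d1 (t0 u v w e0 e1 e2 e3 x y z) (t1 u v w e0 e1 e2 e3 x y z) (t2 u v w e0 e1 e2 e3 x y z)
      (t3 u v w e0 e1 e2 e3 x y z) x y z u v w = 0 ∧
    d2 (t0 u v w e0 e1 e2 e3 x y z) (t1 u v w e0 e1 e2 e3 x y z) (t2 u v w e0 e1 e2 e3 x y z)
      (t3 u v w e0 e1 e2 e3 x y z) x y z u v w = 0 ∧
    d3 (t0 u v w e0 e1 e2 e3 x y z) (t1 u v w e0 e1 e2 e3 x y z) (t2 u v w e0 e1 e2 e3 x y z)
      (t3 u v w e0 e1 e2 e3 x y z) x y z u v w = 0 := by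
  simp only [d0, d1, d2, d3, t0, t1, t2, t3]
  refine ⟨?_, ?_, ?_, ?_⟩
  · linear_combination e0 * h
  · linear_combination e1 * h
  · linear_combination e2 * h
  · linear_combination e3 * h

/-- The norm of `u e + e w`. -/
def tn (u v w e0 e1 e2 e3 x y z : R) : R :=
  t0 u v w e0 e1 e2 e3 x y z ^ 2 + t1 u v w e0 e1 e2 e3 x y z ^ 2 +
    t2 u v w e0 e1 e2 e3 x y z ^ 2 + t3 u v w e0 e1 e2 e3 x y z ^ 2

theorem tn_sum (u v w x y z : R) :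
    tn u v w 1 0 0 0 x y z + tn u v w 0 1 0 0 x y z + tn u v w 0 0 1 0 x y z +
      tn u v w 0 0 0 1 x y z = 4 * ((u ^ 2 + v ^ 2 + w ^ 2) + (x ^ 2 + y ^ 2 + z ^ 2)) := by
  simp only [tn, t0, t1, t2, t3]; ring

end algebra

/-- Two vectors of the same length are conjugate. -/
theorem real_conj {u v w x y z : ℝ} (h : u ^ 2 + v ^ 2 + w ^ 2 = x ^ 2 + y ^ 2 + z ^ 2)
    (h0 : 0 < u ^ 2 + v ^ 2 + w ^ 2) : ∃ a b c d : ℝ, 0 < a ^ 2 + b ^ 2 + c ^ 2 + d ^ 2 ∧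
      r1 a b c d x y z = (a ^ 2 + b ^ 2 + c ^ 2 + d ^ 2) * u ∧
      r2 a b c d x y z = (a ^ 2 + b ^ 2 + c ^ 2 + d ^ 2) * v ∧
      r3 a b c d x y z = (a ^ 2 + b ^ 2 + c ^ 2 + d ^ 2) * w := by
  have key : ∀ e0 e1 e2 e3 : ℝ, 0 < tn u v w e0 e1 e2 e3 x y z →
      ∃ a b c d : ℝ, 0 < a ^ 2 + b ^ 2 + c ^ 2 + d ^ 2 ∧
      r1 a b c d x y z = (a ^ 2 + b ^ 2 + c ^ 2 + d ^ 2) * u ∧
      r2 a b c d x y z = (a ^ 2 + b ^ 2 + c ^ 2 + d ^ 2) * v ∧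
      r3 a b c d x y z = (a ^ 2 + b ^ 2 + c ^ 2 + d ^ 2) * w := by
    intro e0 e1 e2 e3 hp
    obtain ⟨k0, k1, k2, k3⟩ := d_t u v w e0 e1 e2 e3 x y z h
    refine ⟨_, _, _, _, hp, ?_, ?_, ?_⟩
    · rw [r1_eq _ _ _ _ x y z u v w, k0, k1, k2, k3]
      ring
    · rw [r2_eq _ _ _ _ x y z u v w, k0, k1, k2, k3]
      ring
    · rw [r3_eq _ _ _ _ x y z u v w, k0, k1, k2, k3]
      ring
  have hn : ∀ e0 e1 e2 e3 : ℝ, 0 ≤ tn u v w e0 e1 e2 e3 x y z := fun e0 e1 e2 e3 => by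
    unfold tn
    positivity
  have hs := tn_sum u v w x y z
  by_contra hcon
  have h1 : ¬ 0 < tn u v w 1 0 0 0 x y z := fun hp => hcon (key 1 0 0 0 hp)
  have h2 : ¬ 0 < tn u v w 0 1 0 0 x y z := fun hp => hcon (key 0 1 0 0 hp)
  have h3 : ¬ 0 < tn u v w 0 0 1 0 x y z := fun hp => hcon (key 0 0 1 0 hp)
  have h4 : ¬ 0 < tn u v w 0 0 0 1 x y z := fun hp => hcon (key 0 0 0 1 hp)
  linarith

/-- The integral congruence. -/
theorem int_conj {m : ℕ} {u v w e0 e1 e2 e3 p q r a b c d x y z : ℤ}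
    (hx : (m : ℤ) ∣ x - p) (hy : (m : ℤ) ∣ y - q) (hz : (m : ℤ) ∣ z - r)
    (hS : (m : ℤ) ∣ (u ^ 2 + v ^ 2 + w ^ 2) - (p ^ 2 + q ^ 2 + r ^ 2))
    (ha : (m : ℤ) ∣ a - t0 u v w e0 e1 e2 e3 p q r) (hb : (m : ℤ) ∣ b - t1 u v w e0 e1 e2 e3 p q r)
    (hc : (m : ℤ) ∣ c - t2 u v w e0 e1 e2 e3 p q r)
    (hd : (m : ℤ) ∣ d - t3 u v w e0 e1 e2 e3 p q r) :
    (m : ℤ) ∣ r1 a b c d x y z - (a ^ 2 + b ^ 2 + c ^ 2 + d ^ 2) * u ∧
    (m : ℤ) ∣ r2 a b c d x y z - (a ^ 2 + b ^ 2 + c ^ 2 + d ^ 2) * v ∧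
    (m : ℤ) ∣ r3 a b c d x y z - (a ^ 2 + b ^ 2 + c ^ 2 + d ^ 2) * w := by
  have cst : ∀ s t : ℤ, (m : ℤ) ∣ s - t → (s : ZMod m) = t := by
    intro s t h
    have h1 := (ZMod.intCast_zmod_eq_zero_iff_dvd (s - t) m).2 h
    push_cast at h1
    exact sub_eq_zero.1 h1
  have hx' := cst _ _ hx
  have hy' := cst _ _ hy
  have hz' := cst _ _ hz
  have hS' := cst _ _ hS
  have ha' := cst _ _ ha
  have hb' := cst _ _ hb
  have hc' := cst _ _ hc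
  have hd' := cst _ _ hd
  simp only [t0, t1, t2, t3] at ha' hb' hc' hd'
  push_cast at hS' ha' hb' hc' hd'
  obtain ⟨k0, k1, k2, k3⟩ := d_t (u : ZMod m) v w e0 e1 e2 e3 p q r hS'
  have ha2 : (a : ZMod m) = t0 (u : ZMod m) v w e0 e1 e2 e3 p q r := by rw [ha']; simp only [t0]
  have hb2 : (b : ZMod m) = t1 (u : ZMod m) v w e0 e1 e2 e3 p q r := by rw [hb']; simp only [t1]
  have hc2 : (c : ZMod m) = t2 (u : ZMod m) v w e0 e1 e2 e3 p q r := by rw [hc']; simp only [t2]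
  have hd2 : (d : ZMod m) = t3 (u : ZMod m) v w e0 e1 e2 e3 p q r := by rw [hd']; simp only [t3]
  rw [← ha2, ← hb2, ← hc2, ← hd2, ← hx', ← hy', ← hz'] at k0 k1 k2 k3
  have e1' := r1_eq (a : ZMod m) b c d x y z u v w
  have e2' := r2_eq (a : ZMod m) b c d x y z u v w
  have e3' := r3_eq (a : ZMod m) b c d x y z u v w
  rw [k0, k1, k2, k3] at e1' e2' e3'
  refine ⟨?_, ?_, ?_⟩
  · rw [← ZMod.intCast_zmod_eq_zero_iff_dvd]
    have e : ((r1 a b c d x y z : ℤ) : ZMod m) = r1 (a : ZMod m) b c d x y z := by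
      simp only [r1]; push_cast; rfl
    push_cast
    rw [e, e1']
    ring
  · rw [← ZMod.intCast_zmod_eq_zero_iff_dvd]
    have e : ((r2 a b c d x y z : ℤ) : ZMod m) = r2 (a : ZMod m) b c d x y z := by
      simp only [r2]; push_cast; rfl
    push_cast
    rw [e, e2']
    ring
  · rw [← ZMod.intCast_zmod_eq_zero_iff_dvd]
    have e : ((r3 a b c d x y z : ℤ) : ZMod m) = r3 (a : ZMod m) b c d x y z := by
      simp only [r3]; push_cast; rfl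
    push_cast
    rw [e, e3']
    ring

end Pool.Agent.Lib.MP_0d68c6_nt
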