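import Pool.Agent.Lib.MP_0d68c6_nt.Rot

/-!
The choice of the quaternion modulo the primes of `M`.
-/

namespace Pool.Agent.Lib.MP_0d68c6_nt

open Finset

theorem not_dvd_div {N K p : ℕ} (hN : 0 < N) (hp : p.Prime)
    (h : ¬ p ^ (K.factorization p + 1) ∣ N) : ¬ p ∣ N / Nat.gcd N K := by
  intro hd
  have hk : N.factorization p ≤ K.factorization p := by
    by_contra hlt
    push Not at hlt
    exact h ((pow_dvd_pow p hlt).trans (Nat.ordProj_dvd N p))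
  have h1 : p ^ N.factorization p ∣ Nat.gcd N K :=
    Nat.dvd_gcd (Nat.ordProj_dvd N p) ((pow_dvd_pow p hk).trans (Nat.ordProj_dvd K p))
  have h2 : p ^ N.factorization p * p ∣ Nat.gcd N K * (N / Nat.gcd N K) := mul_dvd_mul h1 hd
  rw [Nat.mul_div_cancel' (Nat.gcd_dvd_left N K), ← pow_succ] at h2
  exact Nat.pow_succ_factorization_not_dvd hN.ne' hp h2

theorem cast_eq {m : ℕ} {s t : ℤ} (h : (m : ℤ) ∣ s - t) : (s : ZMod m) = t := by
  have h1 := (ZMod.intCast_zmod_eq_zero_iff_dvd (s - t) m).2 h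
  push_cast at h1
  exact sub_eq_zero.1 h1

theorem tn_cast (m : ℕ) (u v w e0 e1 e2 e3 x y z : ℤ) :
    ((tn u v w e0 e1 e2 e3 x y z : ℤ) : ZMod m) = tn (u : ZMod m) v w e0 e1 e2 e3 x y z := by
  simp only [tn, t0, t1, t2, t3]
  push_cast
  rfl

theorem tn_dvd {m : ℕ} {u v w e0 e1 e2 e3 f0 f1 f2 f3 x y z : ℤ} (h0 : (m : ℤ) ∣ e0 - f0)
    (h1 : (m : ℤ) ∣ e1 - f1) (h2 : (m : ℤ) ∣ e2 - f2) (h3 : (m : ℤ) ∣ e3 - f3) :
    (m : ℤ) ∣ tn u v w e0 e1 e2 e3 x y z - tn u v w f0 f1 f2 f3 x y z := by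
  rw [← ZMod.intCast_zmod_eq_zero_iff_dvd]
  push_cast
  rw [tn_cast, tn_cast, cast_eq h0, cast_eq h1, cast_eq h2, cast_eq h3, sub_self]

/-- The four unit vectors. -/
def un (i l : Fin 4) : ℕ := if i = l then 1 else 0

theorem select {u v w : ℤ} {S : ℕ} (hS0 : 0 < S) (hS : u ^ 2 + v ^ 2 + w ^ 2 = S) {M : ℕ}
    (hM : 0 < M) {p q r : ℤ}
    (h : ((8 * S * M : ℕ) : ℤ) ∣ (u ^ 2 + v ^ 2 + w ^ 2) - (p ^ 2 + q ^ 2 + r ^ 2)) :
    ∃ e0 e1 e2 e3 : ℤ, ∀ a b c d : ℤ, ((8 * S * M : ℕ) : ℤ) ∣ a - t0 u v w e0 e1 e2 e3 p q r →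
      ((8 * S * M : ℕ) : ℤ) ∣ b - t1 u v w e0 e1 e2 e3 p q r →
      ((8 * S * M : ℕ) : ℤ) ∣ c - t2 u v w e0 e1 e2 e3 p q r →
      ((8 * S * M : ℕ) : ℤ) ∣ d - t3 u v w e0 e1 e2 e3 p q r →
      ∀ N : ℕ, a ^ 2 + b ^ 2 + c ^ 2 + d ^ 2 = N → 0 < N →
        Nat.Coprime (N / Nat.gcd N (8 * S)) M := by
  classical
  obtain ⟨K, hK⟩ : ∃ K, K = 8 * S := ⟨_, rfl⟩
  have hK0 : K ≠ 0 := by omega
  rw [← hK] at h ⊢
  -- one prime
  have hone : ∀ l : ℕ, l.Prime → l ∣ M → ∃ i : Fin 4, ¬ ((l ^ (K.factorization l + 1) : ℕ) : ℤ) ∣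
      tn u v w (un i 0 : ℤ) (un i 1 : ℤ) (un i 2 : ℤ) (un i 3 : ℤ) p q r := by
    intro l hl hlM
    by_contra hcon
    push Not at hcon
    have k0 := hcon 0
    have k1 := hcon 1
    have k2 := hcon 2
    have k3 := hcon 3
    simp only [un] at k0 k1 k2 k3
    norm_num at k0 k1 k2 k3
    have hs := tn_sum u v w p q r
    have h1 : ((l ^ (K.factorization l + 1) : ℕ) : ℤ) ∣ ((K * M : ℕ) : ℤ) := by
      rw [Int.natCast_dvd_natCast, pow_succ]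
      exact mul_dvd_mul (Nat.ordProj_dvd K l) hlM
    have h2 := h1.trans h
    push_cast at h2
    have h3 : (l : ℤ) ^ (K.factorization l + 1) ∣ (K : ℤ) := by
      have h4 : (K : ℤ) = (tn u v w 1 0 0 0 p q r + tn u v w 0 1 0 0 p q r +
          tn u v w 0 0 1 0 p q r + tn u v w 0 0 0 1 p q r) +
          4 * ((u ^ 2 + v ^ 2 + w ^ 2) - (p ^ 2 + q ^ 2 + r ^ 2)) := by
        rw [hs, hS, hK]
        push_cast
        ring
      rw [h4]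
      exact dvd_add (dvd_add (dvd_add (dvd_add k0 k1) k2) k3) (h2.mul_left 4)
    have h4 : l ^ (K.factorization l + 1) ∣ K := by exact_mod_cast h3
    exact Nat.pow_succ_factorization_not_dvd hK0 hl h4
  have hch : ∀ l : ℕ, ∃ i : Fin 4, l.Prime → l ∣ M → ¬ ((l ^ (K.factorization l + 1) : ℕ) : ℤ) ∣
      tn u v w (un i 0 : ℤ) (un i 1 : ℤ) (un i 2 : ℤ) (un i 3 : ℤ) p q r := by
    intro l
    by_cases hl : l.Prime ∧ l ∣ M
    · obtain ⟨i, hi⟩ := hone l hl.1 hl.2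
      exact ⟨i, fun _ _ => hi⟩
    · exact ⟨0, fun h1 h2 => absurd ⟨h1, h2⟩ hl⟩
  choose i hi using hch
  have hne : ∀ l ∈ M.primeFactors, l ^ (K.factorization l + 1) ≠ 0 := fun l hl =>
    pow_ne_zero _ (Nat.prime_of_mem_primeFactors hl).ne_zero
  have hcop : Set.Pairwise (M.primeFactors : Set ℕ)
      (Function.onFun Nat.Coprime fun l => l ^ (K.factorization l + 1)) := by
    intro l hl l' hl' hll
    exact Nat.Coprime.pow _ _ ((Nat.coprime_primes (Nat.prime_of_mem_primeFactors (mem_coe.1 hl))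
      (Nat.prime_of_mem_primeFactors (mem_coe.1 hl'))).2 hll)
  have hcrt : ∀ n : Fin 4, ∃ e : ℕ, ∀ l ∈ M.primeFactors,
      e ≡ un (i l) n [MOD l ^ (K.factorization l + 1)] := fun n =>
    ⟨_, (Nat.chineseRemainderOfFinset (fun l => un (i l) n) (fun l => l ^ (K.factorization l + 1))
      M.primeFactors hne hcop).2⟩
  obtain ⟨e0, h0⟩ := hcrt 0
  obtain ⟨e1, h1⟩ := hcrt 1
  obtain ⟨e2, h2⟩ := hcrt 2
  obtain ⟨e3, h3⟩ := hcrt 3
  refine ⟨e0, e1, e2, e3, fun a b c d ha hb hc hd N hN hN0 => ?_⟩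
  refine Nat.Coprime.symm (Nat.coprime_of_dvd fun l hl hlM hd' => ?_)
  have hlm : l ∈ M.primeFactors := Nat.mem_primeFactors.2 ⟨hl, hlM, hM.ne'⟩
  have hi' := hi l hl hlM
  refine not_dvd_div (K := K) hN0 hl ?_ hd'
  intro hdN
  apply hi'
  have g : ∀ (e : ℕ) (n : Fin 4), e ≡ un (i l) n [MOD l ^ (K.factorization l + 1)] →
      ((l ^ (K.factorization l + 1) : ℕ) : ℤ) ∣ ((un (i l) n : ℕ) : ℤ) - e := fun e n he =>
    (Nat.modEq_iff_dvd.1 he)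
  have e4 := tn_dvd (u := u) (v := v) (w := w) (x := p) (y := q) (z := r) (g e0 0 (h0 l hlm))
    (g e1 1 (h1 l hlm)) (g e2 2 (h2 l hlm)) (g e3 3 (h3 l hlm))
  have e5 : ((l ^ (K.factorization l + 1) : ℕ) : ℤ) ∣ ((K * M : ℕ) : ℤ) := by
    rw [Int.natCast_dvd_natCast, pow_succ]
    exact mul_dvd_mul (Nat.ordProj_dvd K l) hlM
  have e6 : ((l ^ (K.factorization l + 1) : ℕ) : ℤ) ∣
      tn u v w e0 e1 e2 e3 p q r - (a ^ 2 + b ^ 2 + c ^ 2 + d ^ 2) := by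
    rw [← ZMod.intCast_zmod_eq_zero_iff_dvd]
    push_cast [tn]
    rw [cast_eq (e5.trans ha), cast_eq (e5.trans hb), cast_eq (e5.trans hc), cast_eq (e5.trans hd)]
    ring
  have e7 : ((l ^ (K.factorization l + 1) : ℕ) : ℤ) ∣ a ^ 2 + b ^ 2 + c ^ 2 + d ^ 2 := by
    rw [hN]
    exact Int.natCast_dvd_natCast.2 hdN
  have e8 := dvd_add (dvd_add e4 e6) e7
  rwa [sub_add_sub_cancel, sub_add_cancel] at e8

end Pool.Agent.Lib.MP_0d68c6_nt
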