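import Pool.Agent.Lib.MP_0d68c6_nt.Defs
import Pool.Agent.Lib.MP_0d68c6_nt.Loc

/-!
The base points modulo `8` for the 32 forms.
-/

namespace Pool.Agent.Lib.MP_0d68c6_nt

/-- For every form `h` a vector `w` with `h w = 1` and for the residues `1, 2, 3, 5, 6, 7` modulo
`8` the data `(n, k, v, e)`. -/
def data : List ((ℤ × ℤ × ℤ × ℤ) × (ℤ × ℤ × ℤ × ℤ) ×
    List (ℕ × ℕ × (ℤ × ℤ × ℤ × ℤ) × (ℤ × ℤ × ℤ × ℤ))) := [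
  ((1, 1, 2, -2), (0, 1, 0, 0), [
    (1, 1, (0, 0, 0, -1), (0, 0, -1, -1)), (2, 0, (-1, 0, 0, -1), (-1, 1, 0, 0)),
    (3, 1, (-1, 1, 0, -1), (0, 0, -1, -1)), (5, 0, (-1, 2, 0, 0), (-1, 1, 0, 0)),
    (6, 1, (-2, 0, 1, -1), (-2, 0, 0, -1)), (7, 0, (-2, -1, 1, -1), (-1, 1, 0, 0))]),
  ((1, 1, 2, -3), (0, 1, 0, 0), [
    (1, 1, (0, 0, 1, 0), (-2, 0, 1, 0)), (2, 1, (-1, 0, 0, -1), (-1, 1, 0, 0)),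
    (3, 2, (-1, 0, 1, -1), (-1, 1, 0, 0)), (5, 0, (-2, 0, 0, -1), (-1, 0, -1, -1)),
    (6, 1, (-2, 1, 0, -1), (-1, 1, 0, 0)), (7, 1, (-2, -1, 1, -1), (-1, 1, 0, 0))]),
  ((1, 1, 2, -4), (0, 1, 0, 0), [
    (1, 2, (0, 0, 0, -1), (0, 0, -2, -1)), (2, 0, (-1, 0, 1, 0), (-1, 1, 0, 0)),
    (3, 1, (-1, -1, 0, -1), (0, 0, -2, -1)), (5, 1, (-2, 0, 0, -1), (0, 0, -2, -1)),
    (6, 0, (-2, -1, 0, -1), (-1, 1, 0, 0)), (7, 0, (-2, 1, -1, -1), (-1, 1, 0, 0))]),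
  ((1, 2, 2, -3), (1, 0, 0, 0), [
    (1, 1, (0, 0, 1, 0), (0, -1, 1, 0)), (2, 0, (-1, 0, 1, 0), (0, -1, 1, 0)),
    (3, 2, (-1, 0, 1, -1), (0, -1, 1, 0)), (5, 0, (-2, 0, 0, -1), (-1, -1, 0, -1)),
    (6, 1, (-2, 1, 1, 0), (-2, 0, 1, 0)), (7, 0, (-2, -1, 1, -1), (-2, 0, 1, 0))]),
  ((1, 2, 3, -4), (1, 0, 0, 0), [
    (1, 2, (0, 0, 0, -1), (-1, 0, -1, -1)), (2, 0, (-1, 1, 0, 0), (-2, 1, 0, 0)),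
    (3, 0, (-1, -1, 0, -1), (-2, 1, 0, 0)), (5, 1, (-2, 0, 0, -1), (-1, 0, -1, -1)),
    (6, 2, (-2, 1, 0, -1), (-2, 1, 0, 0)), (7, 0, (-2, 1, -1, -1), (-2, 1, 0, 0))]),
  ((1, 2, 4, -3), (1, 0, 0, 0), [
    (1, 2, (0, 0, 1, 0), (-1, 0, 1, 1)), (2, 0, (-1, 1, 0, 0), (-2, 1, 0, 0)),
    (3, 0, (-1, -1, 1, 0), (-2, 1, 0, 0)), (5, 0, (-2, 0, 0, -1), (-1, -1, 0, -1)),
    (6, 2, (-2, 1, 1, 0), (-2, 1, 0, 0)), (7, 0, (-2, 1, 1, 1), (-2, 1, 0, 0))]),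
  ((1, 2, 6, -7), (1, 0, 0, 0), [
    (1, 1, (0, 1, 0, 0), (-2, 1, 0, 0)), (2, 0, (-1, 1, 0, 0), (-2, 1, 0, 0)),
    (3, 2, (-1, -1, 0, -1), (-2, 1, 0, 0)), (5, 2, (-2, 0, 1, 0), (-1, 0, -1, -1)),
    (6, 1, (-2, -1, 1, 0), (-2, 1, 0, 0)), (7, 0, (-2, 1, -1, -1), (-2, 1, 0, 0))]),
  ((1, 3, 4, -4), (1, 0, 0, 0), [
    (1, 2, (0, 0, 0, -1), (0, 0, -1, -1)), (2, 0, (0, -1, 0, -1), (0, 0, -1, -1)),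
    (3, 1, (1, -1, 0, -1), (0, 0, -1, -1)), (5, 1, (-2, 0, 0, -1), (0, 0, -1, -1)),
    (6, 0, (-1, 2, -1, 0), (0, 0, -1, -1)), (7, 0, (-2, 1, -1, -1), (-3, 1, 0, 0))]),
  ((1, 4, 6, -5), (1, 0, 0, 0), [
    (1, 2, (0, 1, 0, 0), (-1, -1, 0, -1)), (2, 0, (0, -1, 0, -1), (-1, 0, 1, 1)),
    (3, 0, (-1, -1, 1, 0), (-4, 1, 0, 0)), (5, 2, (-2, 0, 1, 0), (-1, 0, 1, 1)),
    (6, 3, (-2, 1, 1, 0), (-1, -1, 0, -1)), (7, 0, (-2, 1, -1, -1), (-4, 1, 0, 0))]),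
  ((2, 3, 5, -4), (-1, 1, 0, 0), [
    (1, 2, (0, 0, 0, -1), (-2, 0, 0, -1)), (2, 1, (-1, 0, 0, -1), (-2, 0, 0, -1)),
    (3, 1, (0, 1, -1, -1), (-2, 0, 0, -1)), (5, 0, (-2, 0, 1, 0), (-1, -1, 1, 0)),
    (6, 0, (-1, 0, -1, -2), (-1, 2, 0, 1)), (7, 1, (-2, -1, 1, -1), (-2, 0, 0, -1))]),
  ((2, 1, -1, -1), (0, 0, -1, 0), [
    (1, 0, (0, 0, -1, 0), (0, -1, -1, 0)), (2, 1, (0, 0, -1, -1), (0, -1, -1, 0)),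
    (3, 1, (1, -1, -1, 0), (0, -1, 0, -1)), (5, 0, (0, -1, -2, 0), (0, -1, -1, 0)),
    (6, 0, (-1, 0, -2, -1), (0, -1, 0, -1)), (7, 1, (-1, 1, -2, -1), (0, -1, -1, 0))]),
  ((2, 1, -2, -1), (0, 0, 0, -1), [
    (1, 1, (0, 0, -1, 0), (-1, 0, -1, 0)), (2, 0, (0, -1, -1, 0), (-1, 0, -1, 0)),
    (3, 0, (-1, 0, -1, -1), (0, -1, 0, -1)), (5, 1, (-1, 0, -2, 0), (-1, 0, -1, 0)),
    (6, 0, (-1, -1, -2, 0), (-1, 0, -1, 0)), (7, 1, (-1, -1, -2, -1), (-1, 0, -1, 0))]),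
  ((2, 1, -3, -1), (0, 0, 0, -1), [
    (1, 0, (0, 0, 0, -1), (0, -1, 0, -1)), (2, 0, (-1, 0, -1, 0), (-1, 0, 0, -2)),
    (3, 1, (-1, 0, -1, -1), (0, -1, 0, -1)), (5, 2, (-1, 0, -2, 0), (-1, -1, -1, 0)),
    (6, 0, (-1, 1, 0, -2), (0, -1, 0, -1)), (7, 2, (-1, -1, -2, -1), (-1, 0, 0, -2))]),
  ((2, 2, -3, -2), (-1, 0, -1, 0), [
    (1, 1, (0, 0, 0, -1), (-1, 0, 0, -1)), (2, 0, (-1, 0, -1, 0), (-1, 0, 0, -1)),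
    (3, 1, (-1, 1, 0, -1), (-3, 0, -2, 0)), (5, 2, (-1, 0, -2, 0), (-1, 0, 0, -1)),
    (6, 0, (-2, 0, -1, -1), (-1, 0, 0, -1)), (7, 2, (-1, -1, -2, -1), (-3, 0, -2, 0))]),
  ((3, 1, -3, -2), (0, 1, 0, 0), [
    (1, 1, (0, 0, 0, -1), (-1, 1, 0, -1)), (2, 1, (0, -1, -1, 0), (-1, 0, -1, 0)),
    (3, 1, (-1, 0, -1, -1), (0, -2, 0, -1)), (5, 0, (-1, 0, 0, -2), (-1, 0, -1, 0)),
    (6, 1, (-1, -1, -2, 0), (-1, 0, -1, 0)), (7, 2, (-1, -1, -2, -1), (-1, 0, -1, 0))]),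
  ((3, 1, -4, -2), (0, 1, 0, 0), [
    (1, 2, (0, 0, -1, 0), (-1, -1, -1, 0)), (2, 0, (-1, 0, -1, 0), (-1, 1, 0, -1)),
    (3, 1, (-1, 1, -1, 0), (-1, -1, -1, 0)), (5, 0, (-1, 0, 0, -2), (-1, -1, -1, 0)),
    (6, 0, (-1, 2, 0, -1), (-1, -1, -1, 0)), (7, 0, (-2, 1, -1, -1), (0, -2, 0, -1))]),
  ((3, 2, -2, -1), (0, 0, 0, -1), [
    (1, 1, (0, 0, -1, 0), (0, -1, -1, 0)), (2, 0, (0, 0, -1, 1), (0, -1, -1, 0)),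
    (3, 0, (-1, 1, -1, 0), (0, -1, 0, -2)), (5, 0, (-1, 0, -2, 0), (-1, 0, -1, -1)),
    (6, 0, (-1, 0, -1, -2), (0, -1, -1, 0)), (7, 2, (-1, 1, -2, -1), (0, -1, -1, 0))]),
  ((3, 2, -3, -1), (0, 0, 0, -1), [
    (1, 0, (0, 0, 0, -1), (-1, 1, 0, -1)), (2, 0, (0, -1, -1, 0), (-1, 0, -1, 0)),
    (3, 1, (-1, 1, -1, 0), (0, -1, 0, -2)), (5, 0, (-1, 2, 0, 0), (-1, 0, -1, 0)),
    (6, 0, (-1, -1, -2, 0), (-1, 0, -1, 0)), (7, 1, (-1, -1, -2, -1), (-1, 0, -1, 0))]),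
  ((3, 2, -3, -2), (0, -1, -1, 0), [
    (1, 1, (0, 0, 0, -1), (0, -1, 0, -1)), (2, 0, (0, -1, -1, 0), (-1, 0, -1, 0)),
    (3, 1, (-1, 0, -1, -1), (0, -1, 0, -1)), (5, 0, (-1, 0, 0, -2), (-1, 0, -1, 0)),
    (6, 0, (-1, -1, -2, 0), (-1, 0, -1, 0)), (7, 0, (-2, 1, -1, -1), (-1, 0, -1, 0))]),
  ((3, 1, -2, -1), (0, 0, 0, -1), [
    (1, 1, (0, 0, -1, 0), (-1, 0, -1, -1)), (2, 0, (0, -1, -1, 0), (0, -1, 0, -1)),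
    (3, 1, (0, -1, -1, -1), (0, -2, -1, 0)), (5, 0, (-1, 0, -2, 0), (-1, 0, -1, -1)),
    (6, 1, (-1, 0, -2, -1), (0, -1, 0, -1)), (7, 1, (-1, 1, -1, -2), (0, -1, 0, -1))]),
  ((3, 2, -6, -1), (0, 0, 0, -1), [
    (1, 0, (0, 0, 0, -1), (-1, 1, 0, -1)), (2, 2, (0, -1, -1, 0), (-2, 0, -1, 0)),
    (3, 0, (-1, -1, -1, 0), (-2, 0, -1, 0)), (5, 0, (-1, 2, 0, 0), (-1, 1, 0, -1)),
    (6, 0, (-2, 0, -1, -1), (-2, 0, -1, 0)), (7, 0, (-2, 1, -1, 1), (-2, 0, -1, 0))]),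
  ((4, 3, -4, -3), (0, -1, -1, 0), [
    (1, 2, (0, 0, -1, 0), (-1, 0, -1, 0)), (2, 0, (0, -1, -1, 0), (-1, 0, -1, 0)),
    (3, 1, (-1, 1, 0, -1), (-1, 0, -1, 0)), (5, 2, (-1, 0, -2, 0), (-1, 0, -1, 0)),
    (6, 0, (-1, -1, -2, 0), (-1, 0, -1, 0)), (7, 1, (-2, 1, -1, -1), (-1, 0, -1, 0))]),
  ((4, 3, -5, -1), (0, 0, 0, -1), [
    (1, 0, (0, 0, 0, -1), (-1, 0, -1, 1)), (2, 0, (-1, 0, -1, 0), (-1, 1, 0, -1)),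
    (3, 1, (-1, 0, -1, -1), (-1, 0, -1, 1)), (5, 1, (-1, 2, 0, 0), (-1, 0, -1, 1)),
    (6, 0, (-1, 1, 0, -2), (-1, 0, -1, 1)), (7, 2, (-1, -1, -2, -1), (-1, 1, 0, -1))]),
  ((4, 3, -5, -2), (-1, 0, -1, 0), [
    (1, 1, (0, 0, 0, -1), (0, -1, -1, 1)), (2, 0, (-1, 0, -1, 0), (-1, 0, 0, -2)),
    (3, 2, (-1, 1, -1, 0), (-1, 0, 0, -2)), (5, 1, (-1, 2, 0, 0), (-1, 0, 0, -2)),
    (6, 3, (-1, 0, -2, -1), (-1, 0, 0, -2)), (7, 1, (-2, 1, -1, -1), (0, -1, -1, 1))]),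
  ((5, 2, -2, -1), (0, 0, 0, -1), [
    (1, 1, (0, 0, -1, 0), (0, -1, -1, 0)), (2, 0, (0, 0, -1, 1), (0, -1, -1, 0)),
    (3, 0, (0, -1, -1, -1), (0, -1, 0, -2)), (5, 1, (0, -1, -2, 0), (0, -1, -1, 0)),
    (6, 0, (-1, 1, -2, 0), (0, -1, -1, 0)), (7, 1, (-1, 1, -2, -1), (0, -1, -1, 0))]),
  ((5, 2, -3, -2), (0, -1, -1, 0), [
    (1, 1, (0, 0, 0, -1), (0, -1, 0, -1)), (2, 0, (0, -1, -1, 0), (0, -1, 0, -1)),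
    (3, 0, (0, 1, 1, -1), (0, -3, -2, 0)), (5, 0, (-1, 0, -2, 0), (-1, 0, -1, -1)),
    (6, 0, (-1, 1, 0, -2), (0, -1, 0, -1)), (7, 0, (-1, -1, -2, -1), (0, -3, -2, 0))]),
  ((5, 2, -4, -3), (0, -1, 0, -1), [
    (1, 2, (0, 0, -1, 0), (0, -2, -1, 0)), (2, 1, (0, -1, -1, 0), (-1, 1, 0, -1)),
    (3, 1, (-1, 0, -1, -1), (0, -2, -1, 0)), (5, 0, (-1, 0, 0, -2), (-1, 1, 0, -1)),
    (6, 0, (-1, -1, -2, 0), (-1, 0, -2, 1)), (7, 2, (-1, -1, -2, -1), (-1, 1, 0, -1))]),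
  ((5, 4, -5, -1), (0, 0, 0, -1), [
    (1, 0, (0, 0, 0, -1), (-1, 1, 0, -1)), (2, 0, (0, -1, -1, 0), (-1, 0, -1, 0)),
    (3, 2, (-1, 1, -1, 0), (0, -1, 0, -4)), (5, 1, (0, 1, 0, 2), (-1, 1, 0, -1)),
    (6, 0, (-1, -1, -2, 0), (-1, 0, -1, 0)), (7, 1, (-1, -1, -2, -1), (-1, 0, -1, 0))]),
  ((7, 1, -6, -2), (0, 1, 0, 0), [
    (1, 1, (0, 0, 0, -1), (0, -2, 0, -1)), (2, 0, (0, -1, 0, -1), (-1, 1, -1, 0)),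
    (3, 0, (-1, 0, -1, -1), (0, -2, 0, -1)), (5, 2, (0, -2, -1, 0), (-1, 1, -1, 0)),
    (6, 0, (-1, 2, -1, 0), (0, 0, -1, 3)), (7, 1, (-1, -1, -2, 1), (0, -2, 0, -1))]),
  ((8, 3, -3, -2), (0, 0, -1, 1), [
    (1, 1, (0, 0, 0, -1), (-1, 0, -2, -1)), (2, 0, (0, 0, -1, 1), (0, -1, -1, 0)),
    (3, 1, (0, -1, -1, -1), (-1, 0, -2, -1)), (5, 0, (0, -1, 0, -2), (0, -1, -1, 0)),
    (6, 0, (-1, 1, -2, 0), (0, -1, -1, 0)), (7, 1, (-1, 1, -1, -2), (-1, 0, -2, -1))]),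
  ((8, 3, -10, -1), (0, 0, 0, -1), [
    (1, 0, (0, 0, 0, -1), (-1, -1, -1, -1)), (2, 1, (-1, 0, -1, 0), (-2, 2, -1, 0)),
    (3, 0, (-1, 0, -1, 1), (-1, -1, -1, -1)), (5, 2, (0, -2, -1, 0), (-1, -1, -1, -1)),
    (6, 2, (-1, 0, -1, -2), (-2, 2, -1, 0)), (7, 3, (-1, -1, -2, 1), (-1, -1, -1, -1))]),
  ((9, 1, -4, -1), (0, 0, 0, -1), [
    (1, 2, (0, 0, -1, 0), (0, -4, -1, 0)), (2, 1, (0, 1, 0, -1), (-1, 0, -2, -1)),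
    (3, 2, (0, -1, -1, -1), (-1, 0, -2, -1)), (5, 1, (0, -2, -1, 0), (0, -4, -1, 0)),
    (6, 0, (0, -2, -1, 1), (0, -1, 0, -1)), (7, 2, (1, -2, 1, -1), (0, -1, 0, -1))])]

theorem data_ok : ∀ h ∈ forms, ∃ x ∈ data, x.1 = h ∧ dt h x.2.1 = 1 ∧
    (0 < h.1 ∧ 0 < h.2.1 ∧ h.2.2.1 ≠ 0 ∧ h.2.2.2 < 0) ∧
    ∀ n ∈ [1, 2, 3, 5, 6, 7], ∃ y ∈ x.2.2, y.1 = n ∧ dt h y.2.2.1 = 2 ^ y.2.1 ∧
      (dt y.2.2.1 y.2.2.1 - (n : ℤ)) % 8 = 0 ∧ dt h y.2.2.2 = 0 ∧ dt y.2.2.1 y.2.2.2 % 2 = 1 := by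
  decide +kernel

theorem tab_ok {h : ℤ × ℤ × ℤ × ℤ} (hh : h ∈ forms) : (∃ w, dt h w = 1) ∧
    (0 < h.1 ∧ 0 < h.2.1 ∧ h.2.2.1 ≠ 0 ∧ h.2.2.2 < 0) ∧ Tab h := by
  obtain ⟨x, -, -, h1, h2, h3⟩ := data_ok h hh
  refine ⟨⟨_, h1⟩, h2, fun n hn hn0 hn4 => ?_⟩
  have h4 : n ∈ [1, 2, 3, 5, 6, 7] := by
    simp only [List.mem_cons, List.not_mem_nil, or_false]
    omega
  obtain ⟨y, -, -, h5, h6, h7, h8⟩ := h3 n h4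
  exact ⟨y.2.2.1, y.2.2.2, y.2.1, h5, Int.dvd_of_emod_eq_zero h6, h7, by omega⟩

theorem exists_pos {a b c d : ℤ} (ha : 0 < a) (hb : 0 < b) (hc : c ≠ 0) (hd : d < 0) :
    ∃ p1 p2 p3 p4 : ℤ, 0 < p1 ∧ 0 < p2 ∧ 0 < p3 ∧ 0 < p4 ∧
      a * p1 + b * p2 + c * p3 + d * p4 = 0 := by
  rcases lt_or_gt_of_ne hc with h | h
  · exact ⟨-c - d, -c - d, a + b, a + b, by linarith, by linarith, by linarith, by linarith, by ring⟩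
  · exact ⟨-d, -d, -d, a + b + c, by linarith, by linarith, by linarith, by linarith, by ring⟩

end Pool.Agent.Lib.MP_0d68c6_nt
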