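import Pool.Agent.Lib.MP_0d68c6_nt.Cnt

/-!
The number of values of a diagonal quadratic polynomial in three variables.
-/

namespace Pool.Agent.Lib.MP_0d68c6_nt

open Finset

/-- The triples of natural numbers below `R`. -/
def cube (R : ℕ) : Finset (ℕ × ℕ × ℕ) := range R ×ˢ (range R ×ˢ range R)

/-- The polynomial. -/
def dg (A B C : ℕ) (A' B' C' F : ℤ) (t : ℕ × ℕ × ℕ) : ℤ :=
  F + (A * (t.1 : ℤ) ^ 2 + A' * t.1) + (B * (t.2.1 : ℤ) ^ 2 + B' * t.2.1) +
    (C * (t.2.2 : ℤ) ^ 2 + C' * t.2.2)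

theorem cube_card (R : ℕ) : (cube R).card = R ^ 3 := by
  unfold cube
  rw [card_product, card_product, card_range]
  ring

/-- Cauchy's inequality for the number of the values. -/
theorem card_vals {α β : Type} [DecidableEq α] [DecidableEq β] (T : Finset α) (f : α → β) :
    T.card ^ 2 ≤ (T.image f).card * ((T ×ˢ T).filter fun p => f p.1 = f p.2).card := by
  have h1 : T.card = ∑ y ∈ T.image f, (T.filter fun x => f x = y).card :=
    card_eq_sum_card_fiberwise fun x hx => mem_image_of_mem f hx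
  have h2 : ((T ×ˢ T).filter fun p => f p.1 = f p.2).card =
      ∑ y ∈ T.image f, (T.filter fun x => f x = y).card ^ 2 := by
    rw [card_eq_sum_card_fiberwise (f := fun p : α × α => f p.1) (t := T.image f)]
    · refine sum_congr rfl fun y _ => ?_
      rw [pow_two, ← card_product]
      congr 1
      ext p
      simp only [mem_filter, mem_product]
      constructor
      · rintro ⟨⟨⟨h3, h4⟩, h5⟩, h6⟩
        exact ⟨⟨h3, h6⟩, h4, h5.symm.trans h6⟩
      · rintro ⟨⟨h3, h6⟩, h4, h5⟩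
        exact ⟨⟨⟨h3, h4⟩, h6.trans h5.symm⟩, h6⟩
    · intro p hp
      rw [mem_coe, mem_filter, mem_product] at hp
      exact mem_image_of_mem f hp.1.1
  rw [h2]
  conv_lhs => rw [h1]
  exact sq_sum_le_card_mul_sum_sq

/-- The number of the pairs of triples with the same value. -/
theorem pairs_card {A B C L R : ℕ} (hA : 0 < A) (hB : 0 < B) (hC : 0 < C) (hR : 1 ≤ R)
    {A' B' C' : ℤ} (F : ℤ) (hA' : A'.natAbs ≤ L * R) (hB' : B'.natAbs ≤ L * R)
    (hC' : C'.natAbs ≤ L * R) :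
    ((cube R ×ˢ cube R).filter fun p => dg A B C A' B' C' F p.1 = dg A B C A' B' C' F p.2).card ≤
      (1 + 1536 * (2 * (A + B + C) + L) ^ 4) * R ^ 4 := by
  classical
  obtain ⟨M, hM⟩ : ∃ M, M = (2 * (A + B + C) + L) * R := ⟨_, rfl⟩
  -- the differences and the sums
  let u : (ℕ × ℕ × ℕ) × (ℕ × ℕ × ℕ) → ℤ × ℤ × ℤ := fun p =>
    ((p.1.1 : ℤ) - p.2.1, (p.1.2.1 : ℤ) - p.2.2.1, (p.1.2.2 : ℤ) - p.2.2.2)
  let s : (ℕ × ℕ × ℕ) × (ℕ × ℕ × ℕ) → ℤ × ℤ × ℤ := fun p =>
    ((A : ℤ) * (p.1.1 + p.2.1) + A', (B : ℤ) * (p.1.2.1 + p.2.2.1) + B',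
      (C : ℤ) * (p.1.2.2 + p.2.2.2) + C')
  have hinj : ∀ p q : (ℕ × ℕ × ℕ) × (ℕ × ℕ × ℕ), u p = u q → s p = s q → p = q := by
    intro p q h1 h2
    obtain ⟨⟨a1, a2, a3⟩, ⟨b1, b2, b3⟩⟩ := p
    obtain ⟨⟨c1, c2, c3⟩, ⟨d1, d2, d3⟩⟩ := q
    simp only [u, s, Prod.mk.injEq] at h1 h2
    obtain ⟨h3, h4, h5⟩ := h1
    obtain ⟨h6, h7, h8⟩ := h2
    have hA0 : (A : ℤ) ≠ 0 := by exact_mod_cast hA.ne'
    have hB0 : (B : ℤ) ≠ 0 := by exact_mod_cast hB.ne'
    have hC0 : (C : ℤ) ≠ 0 := by exact_mod_cast hC.ne'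
    have e1 : ((a1 : ℤ) + b1) = c1 + d1 := mul_left_cancel₀ hA0 (by linarith)
    have e2 : ((a2 : ℤ) + b2) = c2 + d2 := mul_left_cancel₀ hB0 (by linarith)
    have e3 : ((a3 : ℤ) + b3) = c3 + d3 := mul_left_cancel₀ hC0 (by linarith)
    have f1 : a1 = c1 := by omega
    have f2 : b1 = d1 := by omega
    have f3 : a2 = c2 := by omega
    have f4 : b2 = d2 := by omega
    have f5 : a3 = c3 := by omega
    have f6 : b3 = d3 := by omega
    rw [f1, f2, f3, f4, f5, f6]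
  obtain ⟨P, hP⟩ : ∃ P, P = (cube R ×ˢ cube R).filter fun p =>
    dg A B C A' B' C' F p.1 = dg A B C A' B' C' F p.2 := ⟨_, rfl⟩
  have hsz : ∀ p ∈ P, ((u p).1.natAbs ≤ M ∧ (u p).2.1.natAbs ≤ M ∧ (u p).2.2.natAbs ≤ M) ∧
      ((s p).1.natAbs ≤ M ∧ (s p).2.1.natAbs ≤ M ∧ (s p).2.2.natAbs ≤ M) ∧
      (u p).1 * (s p).1 + (u p).2.1 * (s p).2.1 + (u p).2.2 * (s p).2.2 = 0 := by
    intro p hp
    rw [hP, mem_filter, mem_product] at hp
    obtain ⟨⟨h1, h2⟩, h3⟩ := hp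
    obtain ⟨⟨a1, a2, a3⟩, ⟨b1, b2, b3⟩⟩ := p
    simp only [cube, mem_product, mem_range] at h1 h2
    simp only [dg] at h3
    have hM1 : R ≤ M := by
      rw [hM]
      exact Nat.le_mul_of_pos_left _ (by omega)
    have hMA : 2 * A * R + L * R ≤ M := by
      rw [hM]
      have : 2 * A + L ≤ 2 * (A + B + C) + L := by omega
      calc 2 * A * R + L * R = (2 * A + L) * R := by ring
        _ ≤ _ := Nat.mul_le_mul_right _ this
    have hMB : 2 * B * R + L * R ≤ M := by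
      rw [hM]
      have : 2 * B + L ≤ 2 * (A + B + C) + L := by omega
      calc 2 * B * R + L * R = (2 * B + L) * R := by ring
        _ ≤ _ := Nat.mul_le_mul_right _ this
    have hMC : 2 * C * R + L * R ≤ M := by
      rw [hM]
      have : 2 * C + L ≤ 2 * (A + B + C) + L := by omega
      calc 2 * C * R + L * R = (2 * C + L) * R := by ring
        _ ≤ _ := Nat.mul_le_mul_right _ this
    have hs : ∀ (D x y : ℕ) (D' : ℤ), x < R → y < R → D'.natAbs ≤ L * R → 2 * D * R + L * R ≤ M →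
        ((D : ℤ) * (x + y) + D').natAbs ≤ M := by
      intro D x y D' hx hy hD' hMD
      have h4 : ((D : ℤ) * (x + y)).natAbs ≤ 2 * D * R := by
        have h5 : (D : ℤ) * (x + y) = ((D * (x + y) : ℕ) : ℤ) := by push_cast; ring
        rw [h5, Int.natAbs_natCast]
        calc D * (x + y) ≤ D * (2 * R) := Nat.mul_le_mul_left _ (by omega)
          _ = 2 * D * R := by ring
      have h6 := Int.natAbs_add_le ((D : ℤ) * (x + y)) D'
      omega
    refine ⟨⟨?_, ?_, ?_⟩, ⟨?_, ?_, ?_⟩, ?_⟩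
    · simp only [u]; omega
    · simp only [u]; omega
    · simp only [u]; omega
    · exact hs A a1 b1 A' h1.1 h2.1 hA' hMA
    · exact hs B a2 b2 B' h1.2.1 h2.2.1 hB' hMB
    · exact hs C a3 b3 C' h1.2.2 h2.2.2 hC' hMC
    · simp only [u, s]
      linear_combination h3
  have hd : ∀ (Φ : (ℕ × ℕ × ℕ) × (ℕ × ℕ × ℕ) → (ℤ × ℤ × ℤ) × (ℤ × ℤ × ℤ)),
      (∀ p q, Φ p = Φ q → p = q) → (P.filter fun p => Φ p ∈ dom M).card ≤ 512 * M ^ 4 := by
    intro Φ hΦ
    refine le_trans ?_ (dom_card M)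
    exact card_le_card_of_injOn Φ (fun p hp => (mem_filter.1 hp).2) (fun p _ q _ h => hΦ p q h)
  have hsub : P ⊆ (cube R).image (fun t => (t, t)) ∪
      ((P.filter fun p => (u p, s p) ∈ dom M) ∪
      ((P.filter fun p => (((u p).2.1, (u p).1, (u p).2.2), ((s p).2.1, (s p).1, (s p).2.2)) ∈
        dom M) ∪
      (P.filter fun p => (((u p).2.2, (u p).1, (u p).2.1), ((s p).2.2, (s p).1, (s p).2.1)) ∈
        dom M))) := by
    intro p hp
    obtain ⟨⟨h1, h2, h3⟩, ⟨h4, h5, h6⟩, h7⟩ := hsz p hp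
    rw [mem_union, mem_union, mem_union]
    by_cases h0 : (u p).1 = 0 ∧ (u p).2.1 = 0 ∧ (u p).2.2 = 0
    · left
      rw [hP, mem_filter, mem_product] at hp
      rw [mem_image]
      refine ⟨p.1, hp.1.1, ?_⟩
      obtain ⟨⟨a1, a2, a3⟩, ⟨b1, b2, b3⟩⟩ := p
      simp only [u] at h0
      have e1 : b1 = a1 := by omega
      have e2 : b2 = a2 := by omega
      have e3 : b3 = a3 := by omega
      rw [e1, e2, e3]
    · right
      by_cases k1 : (u p).2.1.natAbs ≤ (u p).1.natAbs ∧ (u p).2.2.natAbs ≤ (u p).1.natAbs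
      · left
        rw [mem_filter]
        have k0 : (u p).1 ≠ 0 := by omega
        exact ⟨hp, mem_dom k0 h1 k1.1 k1.2 h4 h5 h6 h7⟩
      · right
        by_cases k2 : (u p).1.natAbs ≤ (u p).2.1.natAbs ∧ (u p).2.2.natAbs ≤ (u p).2.1.natAbs
        · left
          rw [mem_filter]
          have k0 : (u p).2.1 ≠ 0 := by omega
          have k3 : (u p).2.1 * (s p).2.1 + (u p).1 * (s p).1 + (u p).2.2 * (s p).2.2 = 0 := by
            linarith
          exact ⟨hp, mem_dom k0 h2 k2.1 k2.2 h5 h4 h6 k3⟩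
        · right
          rw [mem_filter]
          have k0 : (u p).2.2 ≠ 0 := by omega
          have k3 : (u p).2.2 * (s p).2.2 + (u p).1 * (s p).1 + (u p).2.1 * (s p).2.1 = 0 := by
            linarith
          have k4 : (u p).1.natAbs ≤ (u p).2.2.natAbs := by omega
          have k5 : (u p).2.1.natAbs ≤ (u p).2.2.natAbs := by omega
          exact ⟨hp, mem_dom k0 h3 k4 k5 h6 h4 h5 k3⟩
  have c1 := hd (fun p => (u p, s p)) fun p q h => hinj p q (congrArg Prod.fst h) (congrArg Prod.snd h)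
  have c2 := hd (fun p => (((u p).2.1, (u p).1, (u p).2.2), ((s p).2.1, (s p).1, (s p).2.2)))
    fun p q h => by
      simp only [Prod.mk.injEq] at h
      exact hinj p q (Prod.ext h.1.2.1 (Prod.ext h.1.1 h.1.2.2))
        (Prod.ext h.2.2.1 (Prod.ext h.2.1 h.2.2.2))
  have c3 := hd (fun p => (((u p).2.2, (u p).1, (u p).2.1), ((s p).2.2, (s p).1, (s p).2.1)))
    fun p q h => by
      simp only [Prod.mk.injEq] at h
      exact hinj p q (Prod.ext h.1.2.1 (Prod.ext h.1.2.2 h.1.1))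
        (Prod.ext h.2.2.1 (Prod.ext h.2.2.2 h.2.1))
  have c0 : ((cube R).image fun t => (t, t)).card ≤ R ^ 4 := by
    refine card_image_le.trans ?_
    rw [cube_card]
    exact Nat.pow_le_pow_right hR (by norm_num)
  rw [← hP]
  have c4 := (card_le_card hsub).trans (card_union_le _ _)
  have c5 := card_union_le (P.filter fun p => (u p, s p) ∈ dom M)
      ((P.filter fun p => (((u p).2.1, (u p).1, (u p).2.2), ((s p).2.1, (s p).1, (s p).2.2)) ∈
        dom M) ∪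
      (P.filter fun p => (((u p).2.2, (u p).1, (u p).2.1), ((s p).2.2, (s p).1, (s p).2.1)) ∈
        dom M))
  have c6 := card_union_le
      (P.filter fun p => (((u p).2.1, (u p).1, (u p).2.2), ((s p).2.1, (s p).1, (s p).2.2)) ∈
        dom M)
      (P.filter fun p => (((u p).2.2, (u p).1, (u p).2.1), ((s p).2.2, (s p).1, (s p).2.1)) ∈
        dom M)
  have hM4 : M ^ 4 = (2 * (A + B + C) + L) ^ 4 * R ^ 4 := by rw [hM, mul_pow]
  calc P.card ≤ R ^ 4 + (512 * M ^ 4 + (512 * M ^ 4 + 512 * M ^ 4)) := by omega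
    _ = (1 + 1536 * (2 * (A + B + C) + L) ^ 4) * R ^ 4 := by rw [hM4]; ring

/-- The number of the values. -/
theorem vals_card {A B C L R : ℕ} (hA : 0 < A) (hB : 0 < B) (hC : 0 < C) (hR : 1 ≤ R)
    {A' B' C' : ℤ} (F : ℤ) (hA' : A'.natAbs ≤ L * R) (hB' : B'.natAbs ≤ L * R)
    (hC' : C'.natAbs ≤ L * R) :
    R ^ 2 ≤ ((cube R).image (dg A B C A' B' C' F)).card *
      (1 + 1536 * (2 * (A + B + C) + L) ^ 4) := by
  classical
  have h1 := card_vals (cube R) (dg A B C A' B' C' F)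
  have h2 := pairs_card hA hB hC hR F hA' hB' hC'
  rw [cube_card] at h1
  have hR4 : 0 < R ^ 4 := pow_pos hR 4
  refine Nat.le_of_mul_le_mul_right ?_ hR4
  calc R ^ 2 * R ^ 4 = (R ^ 3) ^ 2 := by ring
    _ ≤ _ := h1
    _ ≤ ((cube R).image (dg A B C A' B' C' F)).card *
        ((1 + 1536 * (2 * (A + B + C) + L) ^ 4) * R ^ 4) := Nat.mul_le_mul_left _ h2
    _ = _ := by ring

end Pool.Agent.Lib.MP_0d68c6_nt
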